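import Pool.Agent.H751R2.LHY.Main

open MeasureTheory UnitAddTorus
open scoped ComplexConjugate ENNReal

namespace Pool.Agent.H751R2.LHY.H81T



noncomputable section

/-- convergence of the occupation of a set of momenta -/
theorem occ_tendsto {N : ℕ} {ψ : Cfg N → ℂ} (hψ : MemLp ψ 2) (P : Mom → Prop) [DecidablePred P] :
    Filter.Tendsto (fun R : ℕ => ∑ n ∈ (boxM R).filter P, occ (boxM R) (coef ψ) n) Filter.atTop
      (nhds (occE ψ P).toReal) := by
  classical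
  have h1 : ∀ R : ℕ, ∑ n ∈ (boxM R).filter P, occ (boxM R) (coef ψ) n =
      ∑ M ∈ Fintype.piFinset (fun _ : Fin N => boxM R),
        ((Finset.univ.filter (fun i => P (M i))).card : ℝ) * ‖coef ψ M‖ ^ 2 := by
    intro R
    unfold occ
    rw [Finset.sum_comm]
    refine Finset.sum_congr rfl (fun M hM => ?_)
    rw [← Finset.sum_mul]
    congr 1
    have h2 := Finset.card_eq_sum_card_fiberwise (s := Finset.univ.filter (fun i => P (M i)))
      (t := (boxM R).filter P) (f := fun i => M i) (by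
        intro i hi
        simp only [Finset.coe_filter, Finset.mem_univ, true_and, Set.mem_ofPred_eq] at hi ⊢
        exact ⟨Fintype.mem_piFinset.1 hM i, hi⟩)
    rw [h2]
    push_cast
    refine Finset.sum_congr rfl fun n hn => ?_
    congr 2
    ext i
    simp only [Finset.mem_filter, Finset.mem_univ, true_and]
    constructor
    · intro h
      exact ⟨by rw [h]; exact (Finset.mem_filter.1 hn).2, h⟩
    · intro h; exact h.2
  simp only [h1]
  have h0 : ∀ M : Fin N → Mom,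
      0 ≤ ((Finset.univ.filter (fun i => P (M i))).card : ℝ) * ‖coef ψ M‖ ^ 2 := fun M =>
    mul_nonneg (Nat.cast_nonneg _) (sq_nonneg _)
  have hs : Summable (fun M : Fin N → Mom =>
      ((Finset.univ.filter (fun i => P (M i))).card : ℝ) * ‖coef ψ M‖ ^ 2) := by
    refine Summable.of_nonneg_of_le h0 (fun M => ?_)
      ((Gn.coef_hasSum hψ).summable.mul_left (N : ℝ))
    refine mul_le_mul_of_nonneg_right ?_ (sq_nonneg _)
    have := Finset.card_filter_le (Finset.univ : Finset (Fin N)) (fun i => P (M i))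
    rw [Finset.card_univ, Fintype.card_fin] at this
    exact_mod_cast this
  have h3 : (occE ψ P).toReal = ∑' M : Fin N → Mom,
      ((Finset.univ.filter (fun i => P (M i))).card : ℝ) * ‖coef ψ M‖ ^ 2 := by
    unfold occE
    rw [ENNReal.tsum_toReal_eq (fun _ => ENNReal.ofReal_ne_top)]
    simp only [ENNReal.toReal_ofReal (h0 _)]
  rw [h3]
  exact Gn.tendsto_bx hs.hasSum

/-- the occupation is finite -/
theorem occE_ne_top {N : ℕ} {ψ : Cfg N → ℂ} (hψ : MemLp ψ 2) (P : Mom → Prop)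
    [DecidablePred P] : occE ψ P ≠ ⊤ := by
  classical
  have h0 : ∀ M : Fin N → Mom,
      0 ≤ ((Finset.univ.filter (fun i => P (M i))).card : ℝ) * ‖coef ψ M‖ ^ 2 := fun M =>
    mul_nonneg (Nat.cast_nonneg _) (sq_nonneg _)
  have hs : Summable (fun M : Fin N → Mom =>
      ((Finset.univ.filter (fun i => P (M i))).card : ℝ) * ‖coef ψ M‖ ^ 2) := by
    refine Summable.of_nonneg_of_le h0 (fun M => ?_)
      ((Gn.coef_hasSum hψ).summable.mul_left (N : ℝ))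
    refine mul_le_mul_of_nonneg_right ?_ (sq_nonneg _)
    have := Finset.card_filter_le (Finset.univ : Finset (Fin N)) (fun i => P (M i))
    rw [Finset.card_univ, Fintype.card_fin] at this
    exact_mod_cast this
  unfold occE
  rw [← ENNReal.ofReal_tsum_of_nonneg h0 hs]
  exact ENNReal.ofReal_ne_top

/-- one mode, gap lowered by `t` -/
lemma high_termA {N g s κ c D I t : ℝ} (hs0 : 0 < s) (ht : 0 ≤ t) (hN : 0 ≤ N) (hI : 0 < I)
    (hg0 : 0 ≤ g) (hgI : g ≤ I)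
    (hb : N * g ≤ s) (hg2 : g ^ 2 = ((2 * κ + 2 * (5 * s)) * c) ^ 2)
    (hκ4 : 4 * s ≤ κ) (hD2 : κ / 2 ≤ D) (hD : κ - D ≤ 2 * s + t) (hD1 : D ≤ κ) :
    (N * g) ^ 2 / (4 * D) * (1 + ((N * g) / D) ^ 2) ≤
      (N ^ 2 / 2) * ((2 * κ + 2 * (5 * s)) * c ^ 2 + 0.4 * s * c ^ 2
        + (8 * s + t) * I ^ 2 * (1 / κ ^ 2)) := by
  have hκp : 0 < κ := by linarith
  have hAp0 : 0 < D := by linarith
  have hb0 : 0 ≤ N * g := by positivity
  have hden : 0 < 2 * κ + 2 * (5 * s) := by positivity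
  have hgI2 : g ^ 2 ≤ I ^ 2 := pow_le_pow_left₀ hg0 hgI 2
  have e1 : (N * g) ^ 2 / (4 * D) ≤
      (N ^ 2 / 2) * ((2 * κ + 2 * (5 * s)) * c ^ 2
        + (7 * s + t) * I ^ 2 * (1 / κ ^ 2)) := by
    have hsplit : (N * g) ^ 2 / (4 * D) = (N ^ 2 / 2) * ((2 * κ + 2 * (5 * s)) * c ^ 2
        + g ^ 2 * (10 * s + 2 * (κ - D)) / ((2 * D) * (2 * κ + 2 * (5 * s)))) := by
      have : (2 * κ + 2 * (5 * s)) * c ^ 2 = g ^ 2 / (2 * κ + 2 * (5 * s)) := by
        rw [hg2]; field_simp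
      rw [this]
      field_simp
      ring
    rw [hsplit]
    apply mul_le_mul_of_nonneg_left _ (by positivity)
    have : g ^ 2 * (10 * s + 2 * (κ - D)) / ((2 * D) * (2 * κ + 2 * (5 * s))) ≤
        (7 * s + t) * I ^ 2 * (1 / κ ^ 2) := by
      rw [div_le_iff₀ (by positivity), mul_one_div, div_mul_eq_mul_div, le_div_iff₀ (by positivity)]
      have h14 : 10 * s + 2 * (κ - D) ≤ 14 * s + 2 * t := by linarith
      have h140 : 0 ≤ 10 * s + 2 * (κ - D) := by linarith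
      have hx : κ ^ 2 * 2 ≤ (2 * D) * (2 * κ + 2 * (5 * s)) := by
        have h1 : κ ≤ 2 * D := by linarith
        have h2 : 2 * κ ≤ 2 * κ + 2 * (5 * s) := by linarith
        calc κ ^ 2 * 2 = κ * (2 * κ) := by ring
          _ ≤ (2 * D) * (2 * κ + 2 * (5 * s)) := mul_le_mul h1 h2 (by positivity) (by positivity)
      calc g ^ 2 * (10 * s + 2 * (κ - D)) * κ ^ 2 ≤ I ^ 2 * (14 * s + 2 * t) * κ ^ 2 := by
            apply mul_le_mul_of_nonneg_right _ (by positivity)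
            exact mul_le_mul hgI2 h14 h140 (by positivity)
        _ = (7 * s + t) * I ^ 2 * (κ ^ 2 * 2) := by ring
        _ ≤ (7 * s + t) * I ^ 2 * ((2 * D) * (2 * κ + 2 * (5 * s))) :=
            mul_le_mul_of_nonneg_left hx (by positivity)
    linarith
  have e2 : (N * g) ^ 2 / (4 * D) * ((N * g) / D) ^ 2 ≤
      (N ^ 2 / 2) * (s * I ^ 2 * (1 / κ ^ 2)) := by
    have h1 : (N * g) ^ 2 / (4 * D) ≤ N ^ 2 * I ^ 2 / (2 * κ) := by
      rw [div_le_div_iff₀ (by positivity) (by positivity)]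
      have : (N * g) ^ 2 ≤ N ^ 2 * I ^ 2 := by
        rw [mul_pow]; exact mul_le_mul_of_nonneg_left hgI2 (by positivity)
      calc (N * g) ^ 2 * (2 * κ) ≤ (N ^ 2 * I ^ 2) * (2 * κ) :=
            mul_le_mul_of_nonneg_right this (by positivity)
        _ ≤ (N ^ 2 * I ^ 2) * (4 * D) := by
            apply mul_le_mul_of_nonneg_left _ (by positivity)
            linarith
    have h2 : ((N * g) / D) ^ 2 ≤ s / κ := by
      rw [div_pow, div_le_div_iff₀ (by positivity) hκp]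
      have h1 : (N * g) ^ 2 ≤ s ^ 2 := pow_le_pow_left₀ hb0 hb 2
      have h3 : κ * s ≤ D ^ 2 := by nlinarith
      calc (N * g) ^ 2 * κ ≤ s ^ 2 * κ := mul_le_mul_of_nonneg_right h1 hκp.le
        _ = s * (κ * s) := by ring
        _ ≤ s * D ^ 2 := mul_le_mul_of_nonneg_left h3 hs0.le
    calc (N * g) ^ 2 / (4 * D) * ((N * g) / D) ^ 2
        ≤ (N ^ 2 * I ^ 2 / (2 * κ)) * (s / κ) :=
          mul_le_mul h1 h2 (by positivity) (by positivity)
      _ = (N ^ 2 / 2) * (s * I ^ 2 * (1 / κ ^ 2)) := by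
          field_simp
  have hc2 : 0 ≤ (N ^ 2 / 2) * (0.4 * s * c ^ 2) := by positivity
  calc (N * g) ^ 2 / (4 * D) * (1 + ((N * g) / D) ^ 2)
      = (N * g) ^ 2 / (4 * D) + (N * g) ^ 2 / (4 * D) * ((N * g) / D) ^ 2 := by ring
    _ ≤ _ := by linarith

/-- one mode, gap raised by `P` -/
lemma high_termB {N g s κ c D P : ℝ} (hs0 : 0 < s) (hN : 0 ≤ N)
    (hg0 : 0 ≤ g)
    (hb : N * g ≤ s) (hg2 : g ^ 2 = ((2 * κ + 2 * (5 * s)) * c) ^ 2)
    (hP : 14 * s ≤ P) (hκP : P ≤ κ) (hD : κ + P - 2 * s ≤ D) (hD1 : D ≤ κ + P) :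
    (N * g) ^ 2 / (4 * D) * (1 + ((N * g) / D) ^ 2) ≤
      (N ^ 2 / 2) * ((2 * κ + 2 * (5 * s)) * c ^ 2 + 0.4 * s * c ^ 2
        - g ^ 2 * P / (20 * κ ^ 2)) := by
  have hP0 : 0 < P := by linarith
  have hκp : 0 < κ := by linarith
  have hD0 : 0 < D := by linarith
  have hb0 : 0 ≤ N * g := by positivity
  have hden : 0 < 2 * κ + 2 * (5 * s) := by positivity
  have hE : (2 * κ + 2 * (5 * s)) * c ^ 2 = g ^ 2 / (2 * κ + 2 * (5 * s)) := by
    rw [hg2]; field_simp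
  -- difference of the two fractions
  have h1 : P / (11 * κ ^ 2) ≤ 1 / (2 * κ + 2 * (5 * s)) - 1 / (2 * D) := by
    rw [div_sub_div _ _ hden.ne' (by positivity), div_le_div_iff₀ (by positivity) (by positivity)]
    have ha : P ≤ 1 * (2 * D) - (2 * κ + 2 * (5 * s)) * 1 := by linarith
    have hb' : (2 * κ + 2 * (5 * s)) * (2 * D) ≤ 11 * κ ^ 2 := by
      have hc1 : 2 * κ + 2 * (5 * s) ≤ (19 / 7) * κ := by linarith
      have hc2 : 2 * D ≤ 4 * κ := by linarith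
      calc (2 * κ + 2 * (5 * s)) * (2 * D) ≤ ((19 / 7) * κ) * (4 * κ) :=
            mul_le_mul hc1 hc2 (by positivity) (by positivity)
        _ ≤ 11 * κ ^ 2 := by nlinarith [mul_pos hκp hκp]
    calc P * ((2 * κ + 2 * (5 * s)) * (2 * D)) ≤ P * (11 * κ ^ 2) :=
          mul_le_mul_of_nonneg_left hb' hP0.le
      _ ≤ (1 * (2 * D) - (2 * κ + 2 * (5 * s)) * 1) * (11 * κ ^ 2) :=
          mul_le_mul_of_nonneg_right ha (by positivity)
  have h2 : 1 / (2 * D) * ((N * g) / D) ^ 2 ≤ P / (392 * κ ^ 2) := by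
    have ha : (N * g) ^ 2 ≤ (P / 14) ^ 2 := by
      refine pow_le_pow_left₀ hb0 (by linarith) 2
    have hDκ : κ ≤ D := by linarith
    rw [div_pow, div_mul_div_comm, one_mul, div_le_div_iff₀ (by positivity) (by positivity)]
    have h3 : κ * κ ^ 2 ≤ D * D ^ 2 :=
      mul_le_mul hDκ (pow_le_pow_left₀ hκp.le hDκ 2) (by positivity) (by positivity)
    calc (N * g) ^ 2 * (392 * κ ^ 2) ≤ (P / 14) ^ 2 * (392 * κ ^ 2) :=
          mul_le_mul_of_nonneg_right ha (by positivity)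
      _ = P * (2 * (P * κ ^ 2)) := by ring
      _ ≤ P * (2 * (κ * κ ^ 2)) := by
          apply mul_le_mul_of_nonneg_left _ hP0.le
          have := mul_le_mul_of_nonneg_right hκP (show 0 ≤ κ ^ 2 by positivity)
          linarith
      _ ≤ P * (2 * D * D ^ 2) := by
          apply mul_le_mul_of_nonneg_left _ hP0.le
          linarith
  have h3 : P / (20 * κ ^ 2) + P / (392 * κ ^ 2) ≤ P / (11 * κ ^ 2) := by
    have : P / (11 * κ ^ 2) - (P / (20 * κ ^ 2) + P / (392 * κ ^ 2)) =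
        P / κ ^ 2 * (1 / 11 - 1 / 20 - 1 / 392) := by field_simp; ring
    have h4 : 0 ≤ P / κ ^ 2 * (1 / 11 - 1 / 20 - 1 / 392) := by
      have : (0 : ℝ) ≤ 1 / 11 - 1 / 20 - 1 / 392 := by norm_num
      positivity
    linarith
  have h5 : (N * g) ^ 2 / (4 * D) * (1 + ((N * g) / D) ^ 2) =
      (N ^ 2 / 2) * (g ^ 2 * (1 / (2 * D) + 1 / (2 * D) * ((N * g) / D) ^ 2)) := by
    field_simp
    ring
  rw [h5, hE]
  apply mul_le_mul_of_nonneg_left _ (by positivity)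
  have h6 : 1 / (2 * D) + 1 / (2 * D) * ((N * g) / D) ^ 2 ≤
      1 / (2 * κ + 2 * (5 * s)) - P / (20 * κ ^ 2) := by linarith
  have h7 := mul_le_mul_of_nonneg_left h6 (sq_nonneg g)
  have h8 : g ^ 2 * (1 / (2 * κ + 2 * (5 * s)) - P / (20 * κ ^ 2)) =
      g ^ 2 / (2 * κ + 2 * (5 * s)) - g ^ 2 * P / (20 * κ ^ 2) := by ring
  have h9 : 0 ≤ 0.4 * s * c ^ 2 := by positivity
  linarith

/-- the mode energies used in the lower bound -/
def Am (q s L P θ x : ℝ) (n : Mom) : ℝ :=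
  if q * sq n ≤ L then q * sq n + 5 * s else
    if q * sq n < P then q * sq n - x else q * sq n + θ - x

/-- the weights of the occupation numbers -/
def Lm (q s L P θ x : ℝ) (n : Mom) : ℝ :=
  if q * sq n ≤ L then 5 * s + x else if q * sq n < P then 0 else θ

lemma Am_neg (q s L P θ x : ℝ) (n : Mom) : Am q s L P θ x (-n) = Am q s L P θ x n := by
  simp only [Am, sq_neg]

/-- the pair sum of the lower bound -/
def Xs (N : ℕ) (W : T3 → ℝ) (B0 : Finset Mom) (c : Mom → ℝ) (A : Mom → ℝ) : ℝ :=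
  ∑ n ∈ B0, ((N * |gh W B0 c n|) ^ 2 / (4 * A n)) * (1 + ((N * |gh W B0 c n|) / A n) ^ 2)

lemma Xgen {W : T3 → ℝ} (hW : Pot W) {q : ℝ} (hq : 0 < q) {N : ℕ} {I s e : ℝ}
    (hN : 1 ≤ N) (hI : ∫ y, W y ≤ I) (hI0 : 0 < I) (hs : s = N * I)
    {B0 : Finset Mom} {cA cB : Mom → ℝ}
    (hA : Scat W q (5 * s) B0 cA) (hB : Scat W q (3 * s) B0 cB)
    (Γ : ℝ) (hΓ : Γ = gh W B0 cA 0 + ∑ n ∈ B0, (2 * (q * sq n) + 2 * (5 * s)) * cA n ^ 2)
    (A : Mom → ℝ)
    (hX : 0 ≤ Γ * N → Γ * N ≤ 2 * s → Xs N W B0 cA A ≤ ((N : ℝ) ^ 2 / 2) *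
      (∑ n ∈ B0, (2 * (q * sq n) + 2 * (5 * s)) * cA n ^ 2 + 0.4 * s * ∑ n ∈ B0, cA n ^ 2 + e)) :
    ((N : ℝ) ^ 2 / 2) * (gh W B0 cB 0 - e) - s ≤
      (1 / 2) * Γ * ((N : ℝ) ^ 2 - N) - Xs N W B0 cA A ∧ 0 ≤ Γ ∧ Γ * N ≤ 2 * s := by
  have hNr : (1 : ℝ) ≤ N := by exact_mod_cast hN
  have hs0 : 0 < s := by rw [hs]; positivity
  have h5 : 0 < 5 * s := by positivity
  have h3 : 0 < 3 * s := by positivity
  set S2 := ∑ n ∈ B0, (2 * (q * sq n) + 2 * (5 * s)) * cA n ^ 2 with hS2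
  have hS2n : 0 ≤ S2 := Finset.sum_nonneg (fun n _ => by
    have := sq_nonneg' n; positivity)
  have hWn : 0 ≤ ∫ y, W y * (1 - wf B0 cA y) ^ 2 :=
    integral_nonneg (fun y => mul_nonneg (hW.nonneg y) (sq_nonneg _))
  have hQA := scat_Q hW hA
  have hQA' : gh W B0 cA 0 = (∫ y, W y * (1 - wf B0 cA y) ^ 2) + S2 := by
    rw [hQA]; rfl
  have hG0 : 0 ≤ gh W B0 cA 0 := by rw [hQA']; positivity
  have hGI : gh W B0 cA 0 ≤ I := (le_abs_self _).trans ((gh_le hW hq h5 hA 0).trans hI)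
  have hΓ0 : 0 ≤ Γ := by rw [hΓ]; positivity
  have hΓN0 : 0 ≤ Γ * N := by positivity
  have hΓN : Γ * N ≤ 2 * s := by
    have : Γ ≤ 2 * I := by rw [hΓ]; linarith
    rw [hs]; nlinarith
  refine ⟨?_, hΓ0, hΓN⟩
  have hX' := hX hΓN0 hΓN
  have hQB : gh W B0 cB 0 ≤ gh W B0 cA 0 - 4 * s * ∑ n ∈ B0, cA n ^ 2 := by
    rw [scat_Q hW hB, hQA]
    have h1 := scat_min hW hq h3 hB cA
    rw [Qf_shift W q (5 * s) (3 * s) B0 cA] at h1
    linarith
  have hN2 : 0 < (N : ℝ) ^ 2 / 2 := by positivity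
  have hQB' := mul_le_mul_of_nonneg_left hQB hN2.le
  set ω := ∑ n ∈ B0, cA n ^ 2 with hω
  have hω0 : 0 ≤ ω := Finset.sum_nonneg (fun n _ => sq_nonneg _)
  have hp : 0 ≤ ((N : ℝ) ^ 2 / 2) * (3.6 * s * ω) := by positivity
  have e' : (1 / 2) * Γ * ((N : ℝ) ^ 2 - N) = ((N : ℝ) ^ 2 / 2) * (gh W B0 cA 0 + S2)
      - (1 / 2) * (Γ * N) := by rw [hΓ]; ring
  rw [e']
  linarith

end

end Pool.Agent.H751R2.LHY.H81T
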