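import Pool.Agent.D0H81.LHY.Tail1

open MeasureTheory UnitAddTorus
open scoped ComplexConjugate ENNReal

namespace Pool.Agent.H751R2.LHY.H81T

noncomputable section

/-- the energy inequality with general weight `θ` on the momenta with `P ≤ q |n|²` -/
theorem core_gen {N : ℕ} (hN : 1 ≤ N) {W : T3 → ℝ} (hW : Pot W) (hWm : Measurable W)
    {q I s L P θ e K1 η : ℝ} (hq : 0 < q) (hI : ∫ y, W y = I) (hI0 : 0 < I) (hs : s = N * I)
    (hL : 14 * s ≤ L) (hLP : L < P) (hθ : -(P / 4) ≤ θ)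
    (hX : ∀ K, 0 ≤ K → K1 ≤ K → ∀ᶠ R : ℕ in Filter.atTop, ∀ cA : Mom → ℝ,
      Scat (fun y => min (W y) K) q (5 * s) ((boxM R).erase 0) cA →
      ∀ x, 0 ≤ x → x ≤ 2 * s →
        Xs N (fun y => min (W y) K) ((boxM R).erase 0) cA (Am q s L P θ x) ≤
          ((N : ℝ) ^ 2 / 2) * (∑ n ∈ (boxM R).erase 0, (2 * (q * sq n) + 2 * (5 * s)) * cA n ^ 2
            + 0.4 * s * ∑ n ∈ (boxM R).erase 0, cA n ^ 2 + e))
    (hη : 0 ≤ η)
    {ψ : Cfg N → ℂ} (hψ : MemLp ψ 2) (hψ1 : ∫ x, ‖ψ x‖ ^ 2 = 1)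
    (hmin : ∀ φ : Cfg N → ℂ, MemLp φ 2 → ∫ x, ‖φ x‖ ^ 2 = 1 →
      kinE q ψ + potE (fun y => ENNReal.ofReal (W y)) ψ ≤
        kinE q φ + potE (fun y => ENNReal.ofReal (W y)) φ + ENNReal.ofReal η) :
    -(((N : ℝ) ^ 2 / 2) * e) - s - η ≤
      7 * s * (occE ψ (fun n => n ≠ 0 ∧ q * sq n ≤ L)).toReal +
        θ * (occE ψ (fun n => P ≤ q * sq n)).toReal := by
  have hNr : (1 : ℝ) ≤ N := by exact_mod_cast hN
  have hs0 : 0 < s := by rw [hs]; positivity
  have h5 : 0 < 5 * s := by positivity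
  have h3 : 0 < 3 * s := by positivity
  set Eψ : ℝ≥0∞ := kinE q ψ + potE (fun y => ENNReal.ofReal (W y)) ψ with hEψ
  -- finiteness of the energy
  have hEtop : Eψ ≠ ⊤ := by
    have h := trial_bound (N := N) hW hWm hq hI hI0 hs hs0 (boxM_sym 0) (c1 := fun _ => 0)
      (fun _ => rfl) (by rw [Qf_zero, hI]; linarith) hη hmin
    exact ne_top_of_le_ne_top ENNReal.ofReal_ne_top h
  have hktop : kinE q ψ ≠ ⊤ := ne_top_of_le_ne_top hEtop le_self_add
  have hptop : potE (fun y => ENNReal.ofReal (W y)) ψ ≠ ⊤ :=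
    ne_top_of_le_ne_top hEtop le_add_self
  set O : ℝ := (occE ψ (fun n => n ≠ 0 ∧ q * sq n ≤ L)).toReal with hO
  set H : ℝ := (occE ψ (fun n => P ≤ q * sq n)).toReal with hH
  -- main: for all small ε
  suffices hmain : ∀ ε : ℝ, 0 < ε → ε ≤ I →
      -(((N : ℝ) ^ 2 / 2) * e) - s - η - ((N : ℝ) ^ 2 / 2) * ε ≤ 7 * s * O + θ * H by
    by_contra hcon
    push Not at hcon
    set δ := -(((N : ℝ) ^ 2 / 2) * e) - s - η - (7 * s * O + θ * H) with hδ
    have hδ0 : 0 < δ := by linarith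
    have hN2 : 0 < (N : ℝ) ^ 2 / 2 := by positivity
    have h := hmain (min I (δ / (2 * ((N : ℝ) ^ 2 / 2)))) (lt_min hI0 (by positivity))
      (min_le_left _ _)
    have h2 : ((N : ℝ) ^ 2 / 2) * min I (δ / (2 * ((N : ℝ) ^ 2 / 2))) ≤ δ / 2 := by
      calc ((N : ℝ) ^ 2 / 2) * min I (δ / (2 * ((N : ℝ) ^ 2 / 2)))
          ≤ ((N : ℝ) ^ 2 / 2) * (δ / (2 * ((N : ℝ) ^ 2 / 2))) :=
            mul_le_mul_of_nonneg_left (min_le_right _ _) hN2.le
        _ = δ / 2 := by field_simp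
    linarith
  intro ε hε hεI
  obtain ⟨K0, hK0⟩ := clip hW hWm hq h3 hε
  set K := max (max K0 K1) 0 with hK
  have hKK0 : K0 ≤ K := (le_max_left _ _).trans (le_max_left _ _)
  have hKK1 : K1 ≤ K := (le_max_right _ _).trans (le_max_left _ _)
  have hKn : 0 ≤ K := le_max_right _ _
  set WK : T3 → ℝ := fun y => min (W y) K with hWK
  have hWKp : Pot WK := pot_min hW hKn
  have hWKm : Measurable WK := hWm.min measurable_const
  have hWKI : ∫ y, WK y ≤ I := by
    rw [← hI]
    exact integral_mono hWKp.int hW.int (fun y => min_le_left _ _)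
  have hWKle : ∀ y, WK y ≤ W y := fun y => min_le_left _ _
  -- the occupation sums
  set OR : ℕ → ℝ := fun R => ∑ n ∈ (boxM R).filter (fun n => n ≠ 0 ∧ q * sq n ≤ L),
    occ (boxM R) (coef ψ) n with hOR
  set HR : ℕ → ℝ := fun R => ∑ n ∈ (boxM R).filter (fun n => P ≤ q * sq n),
    occ (boxM R) (coef ψ) n with hHR
  have hO0 : 0 ≤ O := ENNReal.toReal_nonneg
  -- per-R inequality
  have hR : ∀ᶠ R : ℕ in Filter.atTop, nrm (boxM R) (coef ψ) *
      (Eψ.toReal - η - ((N : ℝ) ^ 2 / 2) * ε - ((N : ℝ) ^ 2 / 2) * e - s) ≤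
      kinF (boxM R) (coef ψ) q + potF (boxM R) (coef ψ) WK + 7 * s * O + θ * HR R := by
    filter_upwards [hX K hKn hKK1] with R hXR
    set B0 := (boxM R).erase 0 with hB0
    have hS : Sym B0 := boxM_sym R
    obtain ⟨cA, hA⟩ := exists_scat hWKp hq h5 hS
    obtain ⟨cB, hB⟩ := exists_scat hWKp hq h3 hS
    set Γ := gh WK B0 cA 0 + ∑ n ∈ B0, (2 * (q * sq n) + 2 * (5 * s)) * cA n ^ 2 with hΓ
    set A : Mom → ℝ := Am q s L P θ (Γ * N) with hAdef
    obtain ⟨hXb, hΓ0, hΓN⟩ := Xgen hWKp hq hN hWKI hI0 hs hA hB Γ hΓ A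
      (fun h1 h2 => hXR cA hA (Γ * N) h1 h2)
    -- energy upper bound
    have hQB : Qf WK q (3 * s) B0 cB ≤ I := by
      rw [← scat_Q hWKp hB]; exact (gh_zero_le hWKp hq h3 hB).trans hWKI
    obtain ⟨B1, hB1, c1, hc1, hQ1⟩ := hK0 K hKK0 B0 hS cB hB.even (by rw [hI]; linarith)
    have hE := trial_bound hW hWm hq hI hI0 hs hs0 hB1 hc1 (by linarith) hη hmin
    have hQ1n : 0 ≤ Qf W q (3 * s) B1 c1 := by
      unfold Qf
      refine add_nonneg (integral_nonneg (fun y => mul_nonneg (hW.nonneg y) (sq_nonneg _)))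
        (Finset.sum_nonneg (fun n _ => mul_nonneg ?_ (sq_nonneg _)))
      have := sq_nonneg' n; positivity
    have hE2 : Eψ.toReal ≤ ((N : ℝ) ^ 2 / 2) * Qf W q (3 * s) B1 c1 + η :=
      ENNReal.toReal_le_of_le_ofReal (by positivity) hE
    have hN2 : 0 ≤ (N : ℝ) ^ 2 / 2 := by positivity
    have hE3 : Eψ.toReal - η - ((N : ℝ) ^ 2 / 2) * ε ≤ ((N : ℝ) ^ 2 / 2) * gh WK B0 cB 0 := by
      rw [scat_Q hWKp hB]
      have := mul_le_mul_of_nonneg_left hQ1 hN2
      linarith
    -- combine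
    have hX2 : Eψ.toReal - η - ((N : ℝ) ^ 2 / 2) * ε - ((N : ℝ) ^ 2 / 2) * e - s ≤
        (1 / 2) * Γ * ((N : ℝ) ^ 2 - N)
          - ∑ n ∈ B0, ((N * |gh WK B0 cA n|) ^ 2 / (4 * A n)) *
            (1 + ((N * |gh WK B0 cA n|) / A n) ^ 2) := by
      refine le_trans ?_ hXb
      linarith
    have hκ : ∀ n, 0 ≤ q * sq n := fun n => mul_nonneg hq.le (sq_nonneg' n)
    have hgN : ∀ n, N * |gh WK B0 cA n| ≤ s := by
      intro n
      rw [hs]
      exact mul_le_mul_of_nonneg_left ((gh_le hWKp hq h5 hA n).trans hWKI) (by positivity)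
    have hΓN0 : 0 ≤ Γ * N := by positivity
    have hAlow : ∀ n, 2 * s ≤ A n := by
      intro n
      simp only [hAdef, Am]
      have := hκ n
      split_ifs with h h'
      · linarith
      · push Not at h; linarith
      · push Not at h h'; linarith
    have hlow := lowerA hWKp hq h5 hS hA (Lm q s L P θ (Γ * N)) A Γ
      hΓ (by
        intro n _
        have := hAlow n
        linarith)
      (by intro n _; simp only [hAdef, Am_neg])
      (by
        intro n _
        simp only [hAdef, Am, Lm]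
        split_ifs with h h' <;> linarith)
      (by
        intro n _
        have h1 := hgN n
        have h2 := hAlow n
        linarith)
      (coef ψ)
    rw [hB0, insert_box R, ← hB0] at hlow
    have hnn : 0 ≤ nrm (boxM R) (coef ψ) := Finset.sum_nonneg (fun _ _ => sq_nonneg _)
    have hocc : ∑ n ∈ B0, Lm q s L P θ (Γ * N) n *
        occ (boxM R) (coef ψ) n ≤ 7 * s * O + θ * HR R := by
      have h1 : ∑ n ∈ B0, Lm q s L P θ (Γ * N) n * occ (boxM R) (coef ψ) n =
          (5 * s + Γ * N) * ∑ n ∈ (boxM R).filter (fun n => n ≠ 0 ∧ q * sq n ≤ L),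
            occ (boxM R) (coef ψ) n + θ * HR R := by
        rw [Finset.mul_sum, hHR]
        simp only
        rw [Finset.mul_sum]
        have e1 : (boxM R).filter (fun n => n ≠ 0 ∧ q * sq n ≤ L) =
            B0.filter (fun n => q * sq n ≤ L) := by
          ext n; simp only [hB0, Finset.mem_filter, Finset.mem_erase]; tauto
        have hP0 : 0 < P := by linarith
        have e2 : (boxM R).filter (fun n => P ≤ q * sq n) =
            B0.filter (fun n => P ≤ q * sq n) := by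
          ext n; simp only [hB0, Finset.mem_filter, Finset.mem_erase]
          constructor
          · rintro ⟨h1, h2⟩
            refine ⟨⟨?_, h1⟩, h2⟩
            rintro rfl
            simp [sq] at h2
            linarith
          · rintro ⟨⟨_, h1⟩, h2⟩
            exact ⟨h1, h2⟩
        rw [e1, e2, Finset.sum_filter, Finset.sum_filter, ← Finset.sum_add_distrib]
        refine Finset.sum_congr rfl (fun n _ => ?_)
        unfold Lm
        by_cases h : q * sq n ≤ L
        · have h' : ¬ (P ≤ q * sq n) := by linarith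
          rw [if_pos h, if_pos h, if_neg h', add_zero]
        · by_cases h' : P ≤ q * sq n
          · rw [if_neg h, if_neg h, if_pos h', if_neg (not_lt.2 h'), zero_add]
          · rw [if_neg h, if_neg h, if_neg h', if_pos (not_le.1 h'), zero_mul, zero_add]
      rw [h1]
      have h2 := occ_le_occE hψ (fun n => n ≠ 0 ∧ q * sq n ≤ L) R
      have h3 : 0 ≤ 5 * s + Γ * N := by positivity
      have h4 : (5 * s + Γ * N) * ∑ n ∈ (boxM R).filter (fun n => n ≠ 0 ∧ q * sq n ≤ L),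
            occ (boxM R) (coef ψ) n ≤ 7 * s * O := by
        calc _ ≤ (5 * s + Γ * N) * O := mul_le_mul_of_nonneg_left h2 h3
          _ ≤ 7 * s * O := mul_le_mul_of_nonneg_right (by linarith) hO0
      linarith
    have h4 := mul_le_mul_of_nonneg_left hX2 hnn
    linarith
  -- limit
  have hlim1 : Filter.Tendsto (fun R : ℕ => nrm (boxM R) (coef ψ) *
      (Eψ.toReal - η - ((N : ℝ) ^ 2 / 2) * ε - ((N : ℝ) ^ 2 / 2) * e - s)) Filter.atTop
      (nhds (1 * (Eψ.toReal - η - ((N : ℝ) ^ 2 / 2) * ε - ((N : ℝ) ^ 2 / 2) * e - s))) := by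
    have := nrm_tendsto hψ
    rw [hψ1] at this
    exact this.mul_const _
  have hlim2 : Filter.Tendsto (fun R : ℕ => kinF (boxM R) (coef ψ) q +
      potF (boxM R) (coef ψ) WK + 7 * s * O + θ * HR R) Filter.atTop
      (nhds ((kinE q ψ).toReal + (potE (fun y => ENNReal.ofReal (WK y)) ψ).toReal + 7 * s * O
        + θ * H)) :=
    (((kinF_tendsto hq hψ hktop).add (potF_tendsto hWKp hWKm (C := K)
      (fun y => min_le_right _ _) hψ)).add_const _).add
      ((occ_tendsto hψ (fun n => P ≤ q * sq n)).const_mul θ)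
  have hfin := le_of_tendsto_of_tendsto hlim1 hlim2 hR
  have hpm : (potE (fun y => ENNReal.ofReal (WK y)) ψ).toReal ≤
      (potE (fun y => ENNReal.ofReal (W y)) ψ).toReal :=
    ENNReal.toReal_mono hptop (potE_mono (fun y => ENNReal.ofReal_le_ofReal (hWKle y)) ψ)
  have hEr : Eψ.toReal = (kinE q ψ).toReal + (potE (fun y => ENNReal.ofReal (W y)) ψ).toReal :=
    ENNReal.toReal_add hktop hptop
  rw [one_mul] at hfin
  linarith

end

end Pool.Agent.H751R2.LHY.H81T
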