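import Pool.Agent.D0H81.LHY.Tail2

open MeasureTheory UnitAddTorus
open scoped ComplexConjugate ENNReal

namespace Pool.Agent.H751R2.LHY.H81T

noncomputable section

lemma err_high {B0 : Finset Mom} {q L E T : ℝ} (hE : 0 ≤ E)
    (hT : ∀ F : Finset Mom, (∀ n ∈ F, L < q * sq n) → ∑ n ∈ F, 1 / (q * sq n) ^ 2 ≤ T) :
    ∑ n ∈ B0, (if q * sq n ≤ L then (0 : ℝ) else E * (1 / (q * sq n) ^ 2)) ≤ E * T := by
  have h1 : ∑ n ∈ B0, (if q * sq n ≤ L then (0 : ℝ) else E * (1 / (q * sq n) ^ 2)) =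
      E * ∑ n ∈ B0.filter (fun n => ¬ q * sq n ≤ L), 1 / (q * sq n) ^ 2 := by
    rw [Finset.mul_sum, Finset.sum_filter]
    refine Finset.sum_congr rfl (fun n _ => ?_)
    by_cases h : q * sq n ≤ L <;> simp [h]
  rw [h1]
  exact mul_le_mul_of_nonneg_left
    (hT _ (fun n hn => lt_of_not_ge (Finset.mem_filter.1 hn).2)) hE

lemma err_high' {B0 : Finset Mom} {q P E T : ℝ} (hE : 0 ≤ E)
    (hT : ∀ F : Finset Mom, (∀ n ∈ F, P ≤ q * sq n) → ∑ n ∈ F, 1 / (q * sq n) ^ 2 ≤ T) :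
    ∑ n ∈ B0, (if P ≤ q * sq n then E * (1 / (q * sq n) ^ 2) else 0) ≤ E * T := by
  have h1 : ∑ n ∈ B0, (if P ≤ q * sq n then E * (1 / (q * sq n) ^ 2) else 0) =
      E * ∑ n ∈ B0.filter (fun n => P ≤ q * sq n), 1 / (q * sq n) ^ 2 := by
    rw [Finset.mul_sum, Finset.sum_filter]
  rw [h1]
  exact mul_le_mul_of_nonneg_left (hT _ (fun n hn => (Finset.mem_filter.1 hn).2)) hE

lemma XA {W : T3 → ℝ} (hW : Pot W) {q : ℝ} (hq : 0 < q) {N : ℕ} {I s L P T TP : ℝ}
    (hN : 1 ≤ N) (hI : ∫ y, W y ≤ I) (hI0 : 0 < I) (hs : s = N * I)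
    (hL : 14 * s ≤ L) (hLP : L < P)
    {B0 : Finset Mom} {cA : Mom → ℝ} (hA : Scat W q (5 * s) B0 cA)
    (hT : ∀ F : Finset Mom, (∀ n ∈ F, L < q * sq n) → ∑ n ∈ F, 1 / (q * sq n) ^ 2 ≤ T)
    (hTP : ∀ F : Finset Mom, (∀ n ∈ F, P ≤ q * sq n) → ∑ n ∈ F, 1 / (q * sq n) ^ 2 ≤ TP)
    {x : ℝ} (hx0 : 0 ≤ x) (hx : x ≤ 2 * s) :
    Xs N W B0 cA (Am q s L P (-(P / 4)) x) ≤ ((N : ℝ) ^ 2 / 2) *
      (∑ n ∈ B0, (2 * (q * sq n) + 2 * (5 * s)) * cA n ^ 2 + 0.4 * s * ∑ n ∈ B0, cA n ^ 2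
        + (8 * s * I ^ 2 * T + P / 4 * I ^ 2 * TP)) := by
  have hNr : (1 : ℝ) ≤ N := by exact_mod_cast hN
  have hs0 : 0 < s := by rw [hs]; positivity
  have h5 : 0 < 5 * s := by positivity
  have hP0 : 0 < P := by linarith
  have key : ∀ n ∈ B0, ((N * |gh W B0 cA n|) ^ 2 / (4 * Am q s L P (-(P / 4)) x n)) *
        (1 + ((N * |gh W B0 cA n|) / Am q s L P (-(P / 4)) x n) ^ 2) ≤
      ((N : ℝ) ^ 2 / 2) * ((2 * (q * sq n) + 2 * (5 * s)) * cA n ^ 2 + 0.4 * s * cA n ^ 2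
        + ((if q * sq n ≤ L then 0 else 8 * s * I ^ 2 * (1 / (q * sq n) ^ 2)) +
          (if P ≤ q * sq n then P / 4 * I ^ 2 * (1 / (q * sq n) ^ 2) else 0))) := by
    intro n hn
    have hκ : 0 ≤ q * sq n := mul_nonneg hq.le (sq_nonneg' n)
    have hg := hA.eq n hn
    have hg0 : 0 ≤ |gh W B0 cA n| := abs_nonneg _
    have hgI : |gh W B0 cA n| ≤ I := (gh_le hW hq h5 hA n).trans hI
    have hg2 : |gh W B0 cA n| ^ 2 = ((2 * (q * sq n) + 2 * (5 * s)) * cA n) ^ 2 := by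
      rw [sq_abs, hg]
    have hb : N * |gh W B0 cA n| ≤ s := by rw [hs]; nlinarith
    have hb0 : 0 ≤ N * |gh W B0 cA n| := by positivity
    unfold Am
    by_cases h : q * sq n ≤ L
    · have h' : ¬ (P ≤ q * sq n) := by linarith
      rw [if_pos h, if_pos h, if_neg h', add_zero]
      exact low_term hκ hs0 (by positivity) hb0 hb hg2
    · have hκL : L < q * sq n := lt_of_not_ge h
      by_cases h' : P ≤ q * sq n
      · rw [if_neg h, if_neg h, if_pos h', if_neg (not_lt.2 h')]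
        have := high_termA (t := P / 4) (D := q * sq n + -(P / 4) - x) hs0 (by positivity)
          (by positivity) hI0 hg0 hgI hb hg2 (by linarith) (by linarith) (by linarith)
          (by linarith)
        refine this.trans (le_of_eq ?_)
        ring
      · rw [if_neg h, if_neg h, if_neg h', if_pos (not_le.1 h'), add_zero]
        have := high_termA (t := 0) (D := q * sq n - x) hs0 le_rfl
          (by positivity) hI0 hg0 hgI hb hg2 (by linarith) (by linarith) (by linarith)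
          (by linarith)
        rw [add_zero] at this
        exact this
  have hsum := Finset.sum_le_sum key
  rw [← Finset.mul_sum, Finset.sum_add_distrib, Finset.sum_add_distrib,
    Finset.sum_add_distrib, ← Finset.mul_sum] at hsum
  unfold Xs
  refine hsum.trans ?_
  apply mul_le_mul_of_nonneg_left _ (by positivity)
  have h1 := err_high (B0 := B0) (E := 8 * s * I ^ 2) (by positivity) hT
  have h2 := err_high' (B0 := B0) (E := P / 4 * I ^ 2) (by positivity) hTP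
  linarith

lemma XB {W : T3 → ℝ} (hW : Pot W) {q : ℝ} (hq : 0 < q) {N : ℕ} {I s L P T g ν M : ℝ}
    (hN : 1 ≤ N) (hI : ∫ y, W y ≤ I) (hI0 : 0 < I) (hs : s = N * I)
    (hL : 14 * s ≤ L) (hLP : L < P) (hM : 0 < M)
    {B0 : Finset Mom} {cA : Mom → ℝ} (hA : Scat W q (5 * s) B0 cA)
    (hT : ∀ F : Finset Mom, (∀ n ∈ F, L < q * sq n) → ∑ n ∈ F, 1 / (q * sq n) ^ 2 ≤ T)
    (hg : 0 < g) (hgG : g ≤ gh W B0 cA 0)
    (hnear : ∀ n, q * sq n ≤ M * P → 8 * ∫ y, W y * (1 - cs n y) ≤ g)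
    (hν : ν ≤ ((B0.filter (fun n => P ≤ q * sq n ∧ q * sq n ≤ M * P)).card : ℝ))
    {x : ℝ} (hx0 : 0 ≤ x) (hx : x ≤ 2 * s) :
    Xs N W B0 cA (Am q s L P P x) ≤ ((N : ℝ) ^ 2 / 2) *
      (∑ n ∈ B0, (2 * (q * sq n) + 2 * (5 * s)) * cA n ^ 2 + 0.4 * s * ∑ n ∈ B0, cA n ^ 2
        + (8 * s * I ^ 2 * T - ν * (g ^ 2 / (80 * M ^ 2 * P)))) := by
  have hNr : (1 : ℝ) ≤ N := by exact_mod_cast hN
  have hs0 : 0 < s := by rw [hs]; positivity
  have h5 : 0 < 5 * s := by positivity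
  have hP0 : 0 < P := by linarith
  have key : ∀ n ∈ B0, ((N * |gh W B0 cA n|) ^ 2 / (4 * Am q s L P P x n)) *
        (1 + ((N * |gh W B0 cA n|) / Am q s L P P x n) ^ 2) ≤
      ((N : ℝ) ^ 2 / 2) * ((2 * (q * sq n) + 2 * (5 * s)) * cA n ^ 2 + 0.4 * s * cA n ^ 2
        + ((if q * sq n ≤ L then 0 else 8 * s * I ^ 2 * (1 / (q * sq n) ^ 2)) -
          (if P ≤ q * sq n ∧ q * sq n ≤ M * P then g ^ 2 / (80 * M ^ 2 * P) else 0))) := by
    intro n hn
    have hκ : 0 ≤ q * sq n := mul_nonneg hq.le (sq_nonneg' n)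
    have hg' := hA.eq n hn
    have hg0 : 0 ≤ |gh W B0 cA n| := abs_nonneg _
    have hgI : |gh W B0 cA n| ≤ I := (gh_le hW hq h5 hA n).trans hI
    have hg2 : |gh W B0 cA n| ^ 2 = ((2 * (q * sq n) + 2 * (5 * s)) * cA n) ^ 2 := by
      rw [sq_abs, hg']
    have hb : N * |gh W B0 cA n| ≤ s := by rw [hs]; nlinarith
    have hb0 : 0 ≤ N * |gh W B0 cA n| := by positivity
    unfold Am
    by_cases h : q * sq n ≤ L
    · have h' : ¬ (P ≤ q * sq n ∧ q * sq n ≤ M * P) := by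
        rintro ⟨h1, _⟩; linarith
      rw [if_pos h, if_pos h, if_neg h', sub_zero]
      exact low_term hκ hs0 (by positivity) hb0 hb hg2
    · have hκL : L < q * sq n := lt_of_not_ge h
      have h8 : 0 ≤ 8 * s * I ^ 2 * (1 / (q * sq n) ^ 2) := by positivity
      by_cases h' : P ≤ q * sq n
      · rw [if_neg h, if_neg h, if_neg (not_lt.2 h')]
        have hB := high_termB (P := P) (D := q * sq n + P - x) hs0
          (by positivity) hg0 hb hg2 (by linarith) h' (by linarith) (by linarith)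
        refine hB.trans ?_
        apply mul_le_mul_of_nonneg_left _ (by positivity)
        have hκp : 0 < q * sq n := by linarith
        have hgain : (if P ≤ q * sq n ∧ q * sq n ≤ M * P then g ^ 2 / (80 * M ^ 2 * P) else 0) ≤
            |gh W B0 cA n| ^ 2 * P / (20 * (q * sq n) ^ 2) := by
          split_ifs with h2
          · have h3 := gh_near hW hq h5 hA n ((hnear n h2.2).trans hgG)
            have h4 : g / 2 ≤ |gh W B0 cA n| := by
              have := le_abs_self (gh W B0 cA n); linarith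
            have h5' : (g / 2) ^ 2 ≤ |gh W B0 cA n| ^ 2 := pow_le_pow_left₀ (by positivity) h4 2
            have h6 : (q * sq n) ^ 2 ≤ (M * P) ^ 2 := pow_le_pow_left₀ hκ h2.2 2
            rw [div_le_div_iff₀ (by positivity) (by positivity)]
            calc g ^ 2 * (20 * (q * sq n) ^ 2) ≤ g ^ 2 * (20 * (M * P) ^ 2) := by
                  apply mul_le_mul_of_nonneg_left _ (by positivity)
                  linarith
              _ = (g / 2) ^ 2 * (P * (80 * M ^ 2 * P)) := by ring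
              _ ≤ |gh W B0 cA n| ^ 2 * (P * (80 * M ^ 2 * P)) :=
                  mul_le_mul_of_nonneg_right h5' (by positivity)
              _ = |gh W B0 cA n| ^ 2 * P * (80 * M ^ 2 * P) := by ring
          · positivity
        linarith
      · have h2 : ¬ (P ≤ q * sq n ∧ q * sq n ≤ M * P) := by
          rintro ⟨h1, _⟩; exact h' h1
        rw [if_neg h, if_neg h, if_neg h2, if_pos (not_le.1 h'), sub_zero]
        have := high_termA (t := 0) (D := q * sq n - x) hs0 le_rfl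
          (by positivity) hI0 hg0 hgI hb hg2 (by linarith) (by linarith) (by linarith)
          (by linarith)
        rw [add_zero] at this
        exact this
  have hsum := Finset.sum_le_sum key
  rw [← Finset.mul_sum, Finset.sum_add_distrib, Finset.sum_add_distrib,
    Finset.sum_sub_distrib, ← Finset.mul_sum] at hsum
  unfold Xs
  refine hsum.trans ?_
  apply mul_le_mul_of_nonneg_left _ (by positivity)
  have h1 := err_high (B0 := B0) (E := 8 * s * I ^ 2) (by positivity) hT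
  have h2 : ν * (g ^ 2 / (80 * M ^ 2 * P)) ≤
      ∑ n ∈ B0, (if P ≤ q * sq n ∧ q * sq n ≤ M * P then g ^ 2 / (80 * M ^ 2 * P) else 0) := by
    rw [← Finset.sum_filter, Finset.sum_const, nsmul_eq_mul]
    exact mul_le_mul_of_nonneg_right hν (by positivity)
  linarith

/-- upper bound for the number of particles with `P ≤ q |n|²` -/
theorem coreA {N : ℕ} (hN : 1 ≤ N) {W : T3 → ℝ} (hW : Pot W) (hWm : Measurable W)
    {q I s L P T TP η : ℝ} (hq : 0 < q) (hI : ∫ y, W y = I) (hI0 : 0 < I) (hs : s = N * I)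
    (hL : 14 * s ≤ L) (hLP : L < P)
    (hT : ∀ F : Finset Mom, (∀ n ∈ F, L < q * sq n) → ∑ n ∈ F, 1 / (q * sq n) ^ 2 ≤ T)
    (hTP : ∀ F : Finset Mom, (∀ n ∈ F, P ≤ q * sq n) → ∑ n ∈ F, 1 / (q * sq n) ^ 2 ≤ TP)
    (hη : 0 ≤ η)
    {ψ : Cfg N → ℂ} (hψ : MemLp ψ 2) (hψ1 : ∫ x, ‖ψ x‖ ^ 2 = 1)
    (hmin : ∀ φ : Cfg N → ℂ, MemLp φ 2 → ∫ x, ‖φ x‖ ^ 2 = 1 →
      kinE q ψ + potE (fun y => ENNReal.ofReal (W y)) ψ ≤
        kinE q φ + potE (fun y => ENNReal.ofReal (W y)) φ + ENNReal.ofReal η) :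
    P / 4 * (occE ψ (fun n => P ≤ q * sq n)).toReal ≤
      7 * s * (occE ψ (fun n => n ≠ 0 ∧ q * sq n ≤ L)).toReal + s + η +
        ((N : ℝ) ^ 2 / 2) * (8 * s * I ^ 2 * T + P / 4 * I ^ 2 * TP) := by
  have hNr : (1 : ℝ) ≤ N := by exact_mod_cast hN
  have hs0 : 0 < s := by rw [hs]; positivity
  have h := core_gen hN hW hWm (K1 := 0) (θ := -(P / 4))
    (e := 8 * s * I ^ 2 * T + P / 4 * I ^ 2 * TP) hq hI hI0 hs hL hLP le_rfl (by
      intro K hK _
      refine Filter.Eventually.of_forall (fun R cA hA x hx0 hx => ?_)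
      have hWKI : ∫ y, min (W y) K ≤ I := by
        rw [← hI]
        exact integral_mono (pot_min hW hK).int hW.int (fun y => min_le_left _ _)
      exact XA (pot_min hW hK) hq hN hWKI hI0 hs hL hLP hA hT hTP hx0 hx) hη hψ hψ1 hmin
  linarith

/-- lower bound for the number of particles with `P ≤ q |n|²` -/
theorem coreB {N : ℕ} (hN : 1 ≤ N) {W : T3 → ℝ} (hW : Pot W) (hWm : Measurable W)
    {q I s L P T g ν M K1 η : ℝ} (hq : 0 < q) (hI : ∫ y, W y = I) (hI0 : 0 < I) (hs : s = N * I)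
    (hL : 14 * s ≤ L) (hLP : L < P) (hM : 0 < M) (hg : 0 < g)
    (hQ : ∀ K, K1 ≤ K → ∀ B0, Sym B0 → ∀ c, g ≤ Qf (fun y => min (W y) K) q (5 * s) B0 c)
    (hnear : ∀ n, q * sq n ≤ M * P → 8 * ∫ y, W y * (1 - cs n y) ≤ g)
    (hT : ∀ F : Finset Mom, (∀ n ∈ F, L < q * sq n) → ∑ n ∈ F, 1 / (q * sq n) ^ 2 ≤ T)
    (hν : ∀ᶠ R in Filter.atTop,
      ν ≤ ((((boxM R).erase 0).filter (fun n => P ≤ q * sq n ∧ q * sq n ≤ M * P)).card : ℝ))
    (hη : 0 ≤ η)
    {ψ : Cfg N → ℂ} (hψ : MemLp ψ 2) (hψ1 : ∫ x, ‖ψ x‖ ^ 2 = 1)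
    (hmin : ∀ φ : Cfg N → ℂ, MemLp φ 2 → ∫ x, ‖φ x‖ ^ 2 = 1 →
      kinE q ψ + potE (fun y => ENNReal.ofReal (W y)) ψ ≤
        kinE q φ + potE (fun y => ENNReal.ofReal (W y)) φ + ENNReal.ofReal η) :
    ((N : ℝ) ^ 2 / 2) * (ν * (g ^ 2 / (80 * M ^ 2 * P)) - 8 * s * I ^ 2 * T) - s - η ≤
      7 * s * (occE ψ (fun n => n ≠ 0 ∧ q * sq n ≤ L)).toReal +
        P * (occE ψ (fun n => P ≤ q * sq n)).toReal := by
  have hNr : (1 : ℝ) ≤ N := by exact_mod_cast hN
  have hs0 : 0 < s := by rw [hs]; positivity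
  have h5 : 0 < 5 * s := by positivity
  have hP0 : 0 < P := by linarith
  have h := core_gen hN hW hWm (K1 := K1) (θ := P)
    (e := 8 * s * I ^ 2 * T - ν * (g ^ 2 / (80 * M ^ 2 * P))) hq hI hI0 hs hL hLP (by linarith) (by
      intro K hK hKK1
      filter_upwards [hν] with R hνR cA hA x hx0 hx
      have hWKp : Pot (fun y => min (W y) K) := pot_min hW hK
      have hWKI : ∫ y, min (W y) K ≤ I := by
        rw [← hI]
        exact integral_mono hWKp.int hW.int (fun y => min_le_left _ _)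
      have hgG : g ≤ gh (fun y => min (W y) K) ((boxM R).erase 0) cA 0 := by
        rw [scat_Q hWKp hA]; exact hQ K hKK1 _ (boxM_sym R) cA
      have hnearK : ∀ n, q * sq n ≤ M * P → 8 * ∫ y, min (W y) K * (1 - cs n y) ≤ g := by
        intro n hn
        refine le_trans ?_ (hnear n hn)
        have hcs : ∀ y, 0 ≤ 1 - cs n y := fun y => by linarith [cs_le_one n y]
        have hint : ∀ V : T3 → ℝ, Pot V → Integrable (fun y => V y * (1 - cs n y)) := by
          intro V hV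
          exact h464_int_mul hV.int (continuous_const.sub (h464_cs_cont n))
        gcongr
        · exact hint _ hWKp
        · exact hint _ hW
        · intro y
          exact mul_le_mul_of_nonneg_right (min_le_left _ _) (hcs y)
      exact XB hWKp hq hN hWKI hI0 hs hL hLP hM hA hT hg hgG hnearK hνR hx0 hx) hη hψ hψ1 hmin
  linarith

end

end Pool.Agent.H751R2.LHY.H81T
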