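import Pool.Agent.D0H81.LHY.Tail3

open MeasureTheory UnitAddTorus
open scoped ComplexConjugate ENNReal

namespace Pool.Agent.H751R2.LHY.H81T

noncomputable section

/-- number of lattice points in the shell `r² ≤ |n|² ≤ 144 r²` -/
theorem shell_count (r : ℝ) (hr : 1 ≤ r) (R : ℕ) (hR : 12 * r ≤ R) :
    r ^ 3 ≤ ((((boxM R).erase 0).filter (fun n => r ^ 2 ≤ sq n ∧ sq n ≤ 144 * r ^ 2)).card : ℝ) := by
  classical
  have h1 := count_ge (12 * r) (by linarith) R hR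
  set k : ℕ := ⌊r⌋₊ with hk
  have hk1 : (k : ℝ) ≤ r := Nat.floor_le (by linarith)
  have hk2 : r < k + 1 := Nat.lt_floor_add_one _
  have hsub : ((boxM R).erase 0).filter (fun n => sq n ≤ (12 * r) ^ 2) ⊆
      ((boxM R).erase 0).filter (fun n => r ^ 2 ≤ sq n ∧ sq n ≤ 144 * r ^ 2) ∪ boxM k := by
    intro n hn
    rw [Finset.mem_filter] at hn
    rw [Finset.mem_union, Finset.mem_filter]
    by_cases h : n ∈ boxM k
    · exact Or.inr h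
    · left
      refine ⟨hn.1, ?_, ?_⟩
      · have h2 := sq_ge' h
        have h3 : r ^ 2 ≤ ((k : ℝ) + 1) ^ 2 := pow_le_pow_left₀ (by linarith) hk2.le 2
        linarith
      · have := hn.2
        nlinarith
  have hcard := (Finset.card_le_card hsub).trans (Finset.card_union_le _ _)
  rw [card_boxM'] at hcard
  have hcard' : ((((boxM R).erase 0).filter (fun n => sq n ≤ (12 * r) ^ 2)).card : ℝ) ≤
      ((((boxM R).erase 0).filter (fun n => r ^ 2 ≤ sq n ∧ sq n ≤ 144 * r ^ 2)).card : ℝ) +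
        (2 * (k : ℝ) + 1) ^ 3 := by
    exact_mod_cast hcard
  have h3 : (2 * (k : ℝ) + 1) ^ 3 ≤ (3 * r) ^ 3 :=
    pow_le_pow_left₀ (by positivity) (by linarith) 3
  have h4 : (12 * r) ^ 3 / 27 = 64 * r ^ 3 := by ring
  have h5 : (3 * r) ^ 3 = 27 * r ^ 3 := by ring
  have h6 : 0 ≤ r ^ 3 := by positivity
  rw [h4] at h1
  rw [h5] at h3
  linarith

lemma count_shell {q Pc ℓ ν P : ℝ} (hq0 : 0 < q) (hqP : q ≤ P) (hPc : 0 < Pc)
    (hℓ : 0 < ℓ) (hqc : q * Real.sqrt q = Pc / ℓ ^ 3)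
    (hν : ν = P * Real.sqrt P * ℓ ^ 3 / Pc) :
    ∀ᶠ R in Filter.atTop,
      ν ≤ ((((boxM R).erase 0).filter (fun n => P ≤ q * sq n ∧ q * sq n ≤ 144 * P)).card : ℝ) := by
  have hP0 : 0 < P := by linarith
  have hPq : 0 < P / q := by positivity
  obtain ⟨r, hr⟩ : ∃ r, r = Real.sqrt (P / q) := ⟨_, rfl⟩
  have hr2 : r ^ 2 = P / q := by rw [hr]; exact Real.sq_sqrt hPq.le
  have hr1 : 1 ≤ r := by
    rw [hr, Real.one_le_sqrt, one_le_div hq0]; exact hqP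
  obtain ⟨R0, hR0⟩ := exists_nat_ge (12 * r)
  filter_upwards [Filter.eventually_ge_atTop R0] with R hR
  have h1 := shell_count r hr1 R (hR0.trans (by exact_mod_cast hR))
  have hsqp : 0 < Real.sqrt q := Real.sqrt_pos.2 hq0
  have h2 : ν = r ^ 3 := by
    have h3 : r ^ 3 = (P / q) * (Real.sqrt P / Real.sqrt q) := by
      rw [← Real.sqrt_div' _ hq0.le, ← hr, ← hr2]; ring
    have h4 : ν = P * Real.sqrt P / (Pc / ℓ ^ 3) := by
      rw [hν]; field_simp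
    rw [h3, h4, ← hqc]
    field_simp
  rw [h2]
  refine h1.trans (le_of_eq ?_)
  congr 2
  ext n
  simp only [Finset.mem_filter, and_congr_right_iff]
  intro _
  rw [hr2, div_le_iff₀ hq0, mul_div_assoc', le_div_iff₀ hq0, mul_comm (sq n) q]

lemma near_g' {v : (Fin 3 → ℝ) → ℝ} (hvm : Measurable v) (hv : Integrable v)
    (h0 : ∀ x, 0 ≤ v x) {τ δ gs X q ℓ : ℝ} (hτ : 0 < τ)
    (hnear : ∀ κ : Fin 3 → ℝ, ∑ a, κ a ^ 2 ≤ δ →
      ∫ x : Fin 3 → ℝ, v x * (1 - Real.cos (∑ a, κ a * x a)) < gs / 8)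
    (hX : X ≤ τ * δ) (hℓ : 0 < ℓ)
    (hq : q = τ * (2 * Real.pi / ℓ) ^ 2) (n : Mom) (hn : q * sq n ≤ X) :
    8 * ∫ y, Wr v ℓ y * (1 - cs n y) ≤ gs / ℓ ^ 3 := by
  rw [Wr_cos hvm hv h0 hℓ n]
  have h1 : ∑ a, (2 * Real.pi / ℓ * (n a : ℝ)) ^ 2 ≤ δ := by
    have h2 : ∑ a, (2 * Real.pi / ℓ * (n a : ℝ)) ^ 2 = (2 * Real.pi / ℓ) ^ 2 * sq n := by
      rw [sq, Finset.mul_sum]
      exact Finset.sum_congr rfl (fun a _ => by ring)
    rw [h2]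
    have h3 : τ * ((2 * Real.pi / ℓ) ^ 2 * sq n) ≤ X := by
      rw [hq] at hn; linarith
    exact le_of_mul_le_mul_left (h3.trans hX) hτ
  have h5 := (hnear _ h1).le
  have h6 := mul_le_mul_of_nonneg_left h5 (show 0 ≤ 1 / ℓ ^ 3 by positivity)
  calc 8 * (1 / ℓ ^ 3 * ∫ x : Fin 3 → ℝ, v x *
        (1 - Real.cos (∑ a, 2 * Real.pi / ℓ * (n a : ℝ) * x a)))
      ≤ 8 * (1 / ℓ ^ 3 * (gs / 8)) := by linarith
    _ = gs / ℓ ^ 3 := by ring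

lemma scalA {Nr r K τ V0 B δ H O w u C : ℝ} (hN : 0 ≤ Nr) (hr : 0 < r)
    (hτ : 0 < τ) (hV : 0 < V0) (hB : 0 ≤ B) (hδ : 0 ≤ δ) (hO : 0 ≤ O) (hw : 0 < w) (hu : 0 < u)
    (hK : 1 ≤ K) (hNr : 4 * V0 / τ ≤ r * Nr)
    (h : (K ^ 2 * τ * r ^ 2) / 4 * H ≤ 7 * (r ^ 2 * V0) * O + r ^ 2 * V0 + δ * (r ^ 2 * r) * Nr +
      4 * (r ^ 2 * V0) * Nr * r ^ 2 * B / (r * w) +
      (K ^ 2 * τ * r ^ 2) / 8 * (Nr * r ^ 2 * B) / (K * r * u))
    (hC1 : 28 * V0 / τ ≤ C) (hC2 : 4 / τ ≤ C)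
    (hC3 : 1 + 16 * V0 * B / (τ * w) + B / (2 * u) ≤ C) :
    H ≤ C / K * r * Nr + C / K ^ 2 * (δ * r * Nr + O) := by
  have hK0 : 0 < K := by linarith
  have hrN : 0 ≤ r * Nr := by positivity
  have h1 : H = 4 / (K ^ 2 * τ * r ^ 2) * ((K ^ 2 * τ * r ^ 2) / 4 * H) := by field_simp
  have h2 := mul_le_mul_of_nonneg_left h (show 0 ≤ 4 / (K ^ 2 * τ * r ^ 2) by positivity)
  rw [← h1] at h2
  have h3 : 4 / (K ^ 2 * τ * r ^ 2) * (7 * (r ^ 2 * V0) * O + r ^ 2 * V0 + δ * (r ^ 2 * r) * Nr +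
      4 * (r ^ 2 * V0) * Nr * r ^ 2 * B / (r * w) +
      (K ^ 2 * τ * r ^ 2) / 8 * (Nr * r ^ 2 * B) / (K * r * u)) =
      (28 * V0 / τ) * (O / K ^ 2) + (4 * V0 / τ) * (1 / K ^ 2) + (4 / τ) * (δ * r * Nr / K ^ 2) +
      (16 * V0 * B / (τ * w)) * (r * Nr * (1 / K ^ 2)) + (B / (2 * u)) * (r * Nr * (1 / K)) := by
    field_simp
    ring
  rw [h3] at h2
  have h4 : 1 / K ^ 2 ≤ 1 / K := by
    apply one_div_le_one_div_of_le hK0
    nlinarith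
  have hK2 : 0 < 1 / K ^ 2 := by positivity
  have e1 : (28 * V0 / τ) * (O / K ^ 2) ≤ C * (O / K ^ 2) :=
    mul_le_mul_of_nonneg_right hC1 (by positivity)
  have e2 : (4 * V0 / τ) * (1 / K ^ 2) ≤ r * Nr * (1 / K) :=
    mul_le_mul hNr h4 hK2.le hrN
  have e3 : (4 / τ) * (δ * r * Nr / K ^ 2) ≤ C * (δ * r * Nr / K ^ 2) :=
    mul_le_mul_of_nonneg_right hC2 (by positivity)
  have e4 : (16 * V0 * B / (τ * w)) * (r * Nr * (1 / K ^ 2)) ≤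
      (16 * V0 * B / (τ * w)) * (r * Nr * (1 / K)) :=
    mul_le_mul_of_nonneg_left (mul_le_mul_of_nonneg_left h4 hrN) (by positivity)
  have e5 : (1 + 16 * V0 * B / (τ * w) + B / (2 * u)) * (r * Nr * (1 / K)) ≤
      C * (r * Nr * (1 / K)) := mul_le_mul_of_nonneg_right hC3 (by positivity)
  have e6 : C / K * r * Nr + C / K ^ 2 * (δ * r * Nr + O) =
      C * (r * Nr * (1 / K)) + C * (δ * r * Nr / K ^ 2) + C * (O / K ^ 2) := by
    field_simp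
    ring
  rw [e6]
  linarith

lemma scalB {Nr r K τ V0 B δ H O w t a0 D : ℝ} (hN : 0 ≤ Nr) (hr : 0 < r)
    (hτ : 0 < τ) (hV : 0 < V0) (hB : 0 ≤ B) (hδ1 : δ ≤ 1) (hO : 0 ≤ O) (hw : 0 < w) (ht : 0 < t)
    (htτ : t ^ 2 = τ) (ha : 0 < a0)
    (hK : 0 < K) (hNr : V0 / τ ≤ r * Nr)
    (h : Nr * r ^ 2 * (K * r * t) * a0 - 4 * (r ^ 2 * V0) * Nr * r ^ 2 * B / (r * w) - r ^ 2 * V0
      - δ * (r ^ 2 * r) * Nr ≤ 7 * (r ^ 2 * V0) * O + (K ^ 2 * τ * r ^ 2) * H)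
    (hD : D = 1 + 1 / τ + 4 * V0 * B / (w * τ))
    (hKk : 2 * D * t / a0 ≤ K) :
    a0 / (2 * t) / K * r * Nr - 7 * V0 / τ / K ^ 2 * O ≤ H := by
  have hrN : 0 ≤ r * Nr := by positivity
  have h1 : H = 1 / (K ^ 2 * τ * r ^ 2) * ((K ^ 2 * τ * r ^ 2) * H) := by field_simp
  have h2 := mul_le_mul_of_nonneg_left h (show 0 ≤ 1 / (K ^ 2 * τ * r ^ 2) by positivity)
  have h3 : 1 / (K ^ 2 * τ * r ^ 2) * (Nr * r ^ 2 * (K * r * t) * a0 -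
      4 * (r ^ 2 * V0) * Nr * r ^ 2 * B / (r * w) - r ^ 2 * V0 - δ * (r ^ 2 * r) * Nr) =
      (a0 * t / τ) * (r * Nr * (1 / K)) - (4 * V0 * B / (w * τ)) * (r * Nr * (1 / K ^ 2))
      - (V0 / τ) * (1 / K ^ 2) - (δ * (1 / τ)) * (r * Nr * (1 / K ^ 2)) := by
    field_simp
  have h4 : 1 / (K ^ 2 * τ * r ^ 2) * (7 * (r ^ 2 * V0) * O + (K ^ 2 * τ * r ^ 2) * H) =
      7 * V0 / τ / K ^ 2 * O + H := by
    field_simp
  rw [h3, h4] at h2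
  have h5 : a0 * t / τ = a0 / t := by rw [← htτ]; field_simp
  rw [h5] at h2
  have hK2 : 0 < 1 / K ^ 2 := by positivity
  have e1 : (V0 / τ) * (1 / K ^ 2) ≤ (r * Nr) * (1 / K ^ 2) :=
    mul_le_mul_of_nonneg_right hNr hK2.le
  have e2 : (δ * (1 / τ)) * (r * Nr * (1 / K ^ 2)) ≤ (1 * (1 / τ)) * (r * Nr * (1 / K ^ 2)) := by
    apply mul_le_mul_of_nonneg_right _ (by positivity)
    exact mul_le_mul_of_nonneg_right hδ1 (by positivity)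
  have e3 : D * (r * Nr * (1 / K ^ 2)) ≤ a0 / (2 * t) * (r * Nr * (1 / K)) := by
    have h6 : D * (1 / K ^ 2) ≤ a0 / (2 * t) * (1 / K) := by
      rw [div_le_iff₀ ha] at hKk
      rw [mul_one_div, mul_one_div, div_le_div_iff₀ (by positivity) hK]
      have h7 : D ≤ K * a0 / (2 * t) := by
        rw [le_div_iff₀ (by positivity)]; linarith
      calc D * K ≤ (K * a0 / (2 * t)) * K := mul_le_mul_of_nonneg_right h7 hK.le
        _ = a0 / (2 * t) * K ^ 2 := by ring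
    calc D * (r * Nr * (1 / K ^ 2)) = (r * Nr) * (D * (1 / K ^ 2)) := by ring
      _ ≤ (r * Nr) * (a0 / (2 * t) * (1 / K)) := mul_le_mul_of_nonneg_left h6 hrN
      _ = _ := by ring
  have e4 : a0 / (2 * t) / K * r * Nr = a0 / (2 * t) * (r * Nr * (1 / K)) := by
    field_simp
  have e5 : a0 / t * (r * Nr * (1 / K)) = 2 * (a0 / (2 * t) * (r * Nr * (1 / K))) := by
    field_simp
  rw [hD] at e3
  rw [e4]
  rw [e5] at h2
  have e6 : (1 + 1 / τ + 4 * V0 * B / (w * τ)) * (r * Nr * (1 / K ^ 2)) =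
      (r * Nr) * (1 / K ^ 2) + (1 * (1 / τ)) * (r * Nr * (1 / K ^ 2)) +
      (4 * V0 * B / (w * τ)) * (r * Nr * (1 / K ^ 2)) := by ring
  rw [e6] at e3
  linarith

end

end Pool.Agent.H751R2.LHY.H81T
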