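import Pool.Agent.D0H81.LHY.Tail4

open MeasureTheory UnitAddTorus
open scoped ComplexConjugate ENNReal

namespace Pool.Agent.H751R2.LHY.H81T

noncomputable section

/-- the upper bound on one torus -/
lemma oneA {v : (Fin 3 → ℝ) → ℝ} (hvm : Measurable v)
    (hv : Integrable v) (h0 : ∀ x, 0 ≤ v x) (he : ∀ x, v (-x) = v x)
    {τ V0 Ct Pc B K δ C ρ ℓ : ℝ} (hV0 : V0 = ∫ x, v x) (hne : 0 < V0)
    (hτ : 0 < τ)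
    (hCt : 0 < Ct) (htail : ∀ (t : ℝ), 1 ≤ t → ∀ F : Finset Mom,
      (∀ n ∈ F, t ^ 2 < sq n) → ∑ n ∈ F, 1 / sq n ^ 2 ≤ Ct / t)
    (hP : Pc = τ * Real.sqrt τ * (2 * Real.pi) ^ 3) (hB : B = V0 ^ 2 * Ct / Pc)
    (hδ : 0 ≤ δ) (hρ : 0 < ρ) {N : ℕ} (hN1 : 1 ≤ N) (hℓ : 0 < ℓ)
    (hNℓ : (N : ℝ) = ρ * ℓ ^ 3) (hN4 : 4 * V0 / τ ≤ Real.sqrt ρ * N)
    {q : ℝ} (hq : q = τ * (2 * Real.pi / ℓ) ^ 2) (hqs : q ≤ 14 * (ρ * V0))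
    (hK : 1 ≤ K) (hKk : 28 * V0 ≤ K ^ 2 * τ)
    (hC1 : 28 * V0 / τ ≤ C) (hC2 : 4 / τ ≤ C)
    (hC3 : 1 + 16 * V0 * B / (τ * Real.sqrt (14 * V0)) + B / (2 * Real.sqrt (τ / 2)) ≤ C)
    {ψ : Cfg N → ℂ} (hψ : MemLp ψ 2) (hψ1 : ∫ x, ‖ψ x‖ ^ 2 = 1)
    (hmin : ∀ φ : Cfg N → ℂ, MemLp φ 2 → ∫ x, ‖φ x‖ ^ 2 = 1 →
        kinE q ψ + potE (perPot v ℓ) ψ ≤
        kinE q φ + potE (perPot v ℓ) φ + ENNReal.ofReal (δ * (ρ * Real.sqrt ρ) * N)) :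
    (occE ψ (fun n => K ^ 2 * τ * ρ ≤ q * sq n)).toReal ≤
      C / K * Real.sqrt ρ * N + C / K ^ 2 * (δ * Real.sqrt ρ * N +
        (occE ψ (fun n => n ≠ 0 ∧ q * sq n ≤ 14 * (ρ * V0))).toReal) := by
  have hPi : 0 < Real.pi := Real.pi_pos
  have hsτ : 0 < Real.sqrt τ := Real.sqrt_pos.2 hτ
  have hP0 : 0 < Pc := by rw [hP]; positivity
  have hNpos : (0 : ℝ) < N := by exact_mod_cast hN1
  have hK0 : 0 < K := by linarith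
  obtain ⟨r, hr⟩ : ∃ r, r = Real.sqrt ρ := ⟨_, rfl⟩
  have hr0 : 0 < r := by rw [hr]; exact Real.sqrt_pos.2 hρ
  have hr2 : r ^ 2 = ρ := by rw [hr]; exact Real.sq_sqrt hρ.le
  obtain ⟨w, hw⟩ : ∃ w, w = Real.sqrt (14 * V0) := ⟨_, rfl⟩
  have hw0 : 0 < w := by rw [hw]; exact Real.sqrt_pos.2 (by positivity)
  obtain ⟨u, hu⟩ : ∃ u, u = Real.sqrt (τ / 2) := ⟨_, rfl⟩
  have hu0 : 0 < u := by rw [hu]; exact Real.sqrt_pos.2 (by positivity)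
  rw [← hw, ← hu] at hC3
  obtain ⟨s, hs⟩ : ∃ s, s = ρ * V0 := ⟨_, rfl⟩
  have hs0 : 0 < s := by rw [hs]; positivity
  obtain ⟨P, hPd⟩ : ∃ P, P = K ^ 2 * τ * ρ := ⟨_, rfl⟩
  have hP28 : 28 * s ≤ P := by
    rw [hs, hPd]
    have := mul_le_mul_of_nonneg_right hKk hρ.le
    linarith
  rw [← hs] at hqs ⊢
  rw [← hPd]
  have hq0 : 0 < q := by rw [hq]; positivity
  have hsq : Real.sqrt q = Real.sqrt τ * (2 * Real.pi / ℓ) := by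
    rw [hq, Real.sqrt_mul hτ.le, Real.sqrt_sq (by positivity)]
  have hqP : q * Real.sqrt q = Pc / ℓ ^ 3 := by
    rw [hsq, hq, hP]; field_simp
  have sL : Real.sqrt (14 * s) = r * w := by
    rw [hs, hr, hw, ← Real.sqrt_mul hρ.le]
    congr 1; ring
  have sP : Real.sqrt (P / 2) = K * r * u := by
    have h1 : P / 2 = (K * r) ^ 2 * (τ / 2) := by rw [hPd, ← hr2]; ring
    rw [h1, Real.sqrt_mul (by positivity), Real.sqrt_sq (by positivity), hu]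
  obtain ⟨I, hI⟩ : ∃ I, I = V0 / ℓ ^ 3 := ⟨_, rfl⟩
  have hI0 : 0 < I := by rw [hI]; positivity
  obtain ⟨T, hT⟩ : ∃ T, T = Ct * ℓ ^ 3 / (Pc * Real.sqrt (14 * s)) := ⟨_, rfl⟩
  obtain ⟨TP, hTP⟩ : ∃ T, T = Ct * ℓ ^ 3 / (Pc * Real.sqrt (P / 2)) := ⟨_, rfl⟩
  obtain ⟨η, hη⟩ : ∃ η, η = δ * (ρ * Real.sqrt ρ) * N := ⟨_, rfl⟩
  have hη0 : 0 ≤ η := by rw [hη]; positivity
  have hWp := Wr_pot hvm hv he hℓ
  have hcong : ∀ φ : Cfg N → ℂ, potE (fun y => ENNReal.ofReal (Wr v ℓ y)) φ =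
      potE (perPot v ℓ) φ := fun φ => (potE_congr (perPot_ae hvm hv hℓ) φ).symm
  have hsN : s = N * I := by rw [hs, hI, hNℓ]; field_simp
  have hWI : ∫ y, Wr v ℓ y = I := by rw [Wr_int_one hvm hv h0 hℓ, hI, hV0]
  have hcore := coreA hN1 hWp (Wr_meas hvm ℓ) hq0 hWI hI0 hsN (L := 14 * s) le_rfl
    (P := P) (by linarith)
    (tail_T htail hq0 hqs hP0 hℓ hqP hT)
    (fun F hF => tail_T htail hq0 (by linarith) hP0 hℓ hqP hTP F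
      (fun n hn => lt_of_lt_of_le (by linarith) (hF n hn)))
    hη0 hψ hψ1 (by
      intro φ hφ hφ1
      rw [hcong ψ, hcong φ, hη]
      exact hmin φ hφ hφ1)
  obtain ⟨O, hO⟩ : ∃ O, O = (occE ψ (fun n => n ≠ 0 ∧ q * sq n ≤ 14 * s)).toReal := ⟨_, rfl⟩
  obtain ⟨H, hH⟩ : ∃ H, H = (occE ψ (fun n => P ≤ q * sq n)).toReal := ⟨_, rfl⟩
  rw [← hO, ← hH] at hcore
  rw [← hO, ← hH, ← hr]
  have hO0 : 0 ≤ O := by rw [hO]; exact ENNReal.toReal_nonneg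
  refine scalA (τ := τ) (V0 := V0) (B := B) (w := w) (u := u) hNpos.le hr0 hτ hne
    (by rw [hB]; positivity) hδ hO0 hw0 hu0 hK (by rw [hr]; exact hN4) ?_ hC1 hC2 hC3
  have hℓr : (N : ℝ) = r ^ 2 * ℓ ^ 3 := by rw [hr2]; exact hNℓ
  have e1 : ((N : ℝ) ^ 2 / 2) * (8 * s * I ^ 2 * T + P / 4 * I ^ 2 * TP) =
      4 * (r ^ 2 * V0) * N * r ^ 2 * B / (r * w) +
      (K ^ 2 * τ * r ^ 2) / 8 * (N * r ^ 2 * B) / (K * r * u) := by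
    rw [hT, hTP, sL, sP, hB, hI, hs, hPd, ← hr2, hℓr]
    field_simp
    ring
  rw [e1] at hcore
  have e2 : P = K ^ 2 * τ * r ^ 2 := by rw [hPd, hr2]
  have e3 : s = r ^ 2 * V0 := by rw [hs, hr2]
  have e4 : η = δ * (r ^ 2 * r) * N := by rw [hη, ← hr, hr2]
  rw [e4, e3, e2] at hcore
  linarith

/-- the lower bound on one torus -/
lemma oneB {v : (Fin 3 → ℝ) → ℝ} (hvm : Measurable v)
    (hv : Integrable v) (h0 : ∀ x, 0 ≤ v x) (he : ∀ x, v (-x) = v x)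
    {τ V0 gs k A δ₀ Ct Pc B a0 D K δ ρ ℓ : ℝ} (hV0 : V0 = ∫ x, v x) (hne : 0 < V0)
    (hk1 : 1 ≤ k) (hA : A = ∫ x, vt v k x) (hA0 : 0 < A)
    (hτ : 0 < τ) (hgs : gs = A ^ 2 / (A + (7 * A ^ 2 + k * A) / τ)) (hgs0 : 0 < gs)
    (hnear : ∀ κ : Fin 3 → ℝ, ∑ a, κ a ^ 2 ≤ δ₀ →
      ∫ x : Fin 3 → ℝ, v x * (1 - Real.cos (∑ a, κ a * x a)) < gs / 8)
    (hCt : 0 < Ct) (htail : ∀ (t : ℝ), 1 ≤ t → ∀ F : Finset Mom,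
      (∀ n ∈ F, t ^ 2 < sq n) → ∑ n ∈ F, 1 / sq n ^ 2 ≤ Ct / t)
    (hP : Pc = τ * Real.sqrt τ * (2 * Real.pi) ^ 3) (hB : B = V0 ^ 2 * Ct / Pc)
    (ha0 : a0 = gs ^ 2 / (160 * 144 ^ 2 * Pc))
    (hD : D = 1 + 1 / τ + 4 * V0 * B / (Real.sqrt (14 * V0) * τ))
    (hδ : 0 ≤ δ) (hδ1 : δ ≤ 1) (hρ : 0 < ρ) {N : ℕ} (hN1 : 1 ≤ N) (hℓ : 0 < ℓ)
    (hNℓ : (N : ℝ) = ρ * ℓ ^ 3) (hN4 : V0 / τ ≤ Real.sqrt ρ * N)
    (hℓ1 : 1 ≤ ℓ) (hℓk : 2 * k < ℓ)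
    {q : ℝ} (hq : q = τ * (2 * Real.pi / ℓ) ^ 2) (hqs : q ≤ 14 * (ρ * V0))
    (hK : 0 < K) (hKk : 28 * V0 ≤ K ^ 2 * τ) (hKD : 2 * D * Real.sqrt τ / a0 ≤ K)
    (hKδ : 144 * (K ^ 2 * ρ) ≤ δ₀)
    {ψ : Cfg N → ℂ} (hψ : MemLp ψ 2) (hψ1 : ∫ x, ‖ψ x‖ ^ 2 = 1)
    (hmin : ∀ φ : Cfg N → ℂ, MemLp φ 2 → ∫ x, ‖φ x‖ ^ 2 = 1 →
        kinE q ψ + potE (perPot v ℓ) ψ ≤
        kinE q φ + potE (perPot v ℓ) φ + ENNReal.ofReal (δ * (ρ * Real.sqrt ρ) * N)) :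
    a0 / (2 * Real.sqrt τ) / K * Real.sqrt ρ * N - 7 * V0 / τ / K ^ 2 *
        (occE ψ (fun n => n ≠ 0 ∧ q * sq n ≤ 14 * (ρ * V0))).toReal ≤
      (occE ψ (fun n => K ^ 2 * τ * ρ ≤ q * sq n)).toReal := by
  have hPi : 0 < Real.pi := Real.pi_pos
  have hP0 : 0 < Pc := by
    have hsτ : 0 < Real.sqrt τ := Real.sqrt_pos.2 hτ
    rw [hP]; positivity
  have hNpos : (0 : ℝ) < N := by exact_mod_cast hN1
  obtain ⟨r, hr⟩ : ∃ r, r = Real.sqrt ρ := ⟨_, rfl⟩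
  have hr0 : 0 < r := by rw [hr]; exact Real.sqrt_pos.2 hρ
  have hr2 : r ^ 2 = ρ := by rw [hr]; exact Real.sq_sqrt hρ.le
  obtain ⟨w, hw⟩ : ∃ w, w = Real.sqrt (14 * V0) := ⟨_, rfl⟩
  have hw0 : 0 < w := by rw [hw]; exact Real.sqrt_pos.2 (by positivity)
  obtain ⟨t, ht⟩ : ∃ t, t = Real.sqrt τ := ⟨_, rfl⟩
  have ht0 : 0 < t := by rw [ht]; exact Real.sqrt_pos.2 hτ
  have ht2 : t ^ 2 = τ := by rw [ht]; exact Real.sq_sqrt hτ.le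
  rw [← hw] at hD
  obtain ⟨s, hs⟩ : ∃ s, s = ρ * V0 := ⟨_, rfl⟩
  have hs0 : 0 < s := by rw [hs]; positivity
  obtain ⟨P, hPd⟩ : ∃ P, P = K ^ 2 * τ * ρ := ⟨_, rfl⟩
  have hP28 : 28 * s ≤ P := by
    rw [hs, hPd]
    have := mul_le_mul_of_nonneg_right hKk hρ.le
    linarith
  have hPpos : 0 < P := by linarith
  rw [← hs] at hqs ⊢
  rw [← hPd]
  have hq0 : 0 < q := by rw [hq]; positivity
  have hsq : Real.sqrt q = Real.sqrt τ * (2 * Real.pi / ℓ) := by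
    rw [hq, Real.sqrt_mul hτ.le, Real.sqrt_sq (by positivity)]
  have hqP : q * Real.sqrt q = Pc / ℓ ^ 3 := by
    rw [hsq, hq, hP]; field_simp
  have sL : Real.sqrt (14 * s) = r * w := by
    rw [hs, hr, hw, ← Real.sqrt_mul hρ.le]
    congr 1; ring
  have sP : Real.sqrt P = K * r * t := by
    have h1 : P = (K * r) ^ 2 * τ := by rw [hPd, ← hr2]; ring
    rw [h1, Real.sqrt_mul (by positivity), Real.sqrt_sq (by positivity), ht]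
  obtain ⟨I, hI⟩ : ∃ I, I = V0 / ℓ ^ 3 := ⟨_, rfl⟩
  have hI0 : 0 < I := by rw [hI]; positivity
  obtain ⟨g, hg⟩ : ∃ g, g = gs / ℓ ^ 3 := ⟨_, rfl⟩
  have hg0 : 0 < g := by rw [hg]; positivity
  obtain ⟨T, hT⟩ : ∃ T, T = Ct * ℓ ^ 3 / (Pc * Real.sqrt (14 * s)) := ⟨_, rfl⟩
  obtain ⟨ν, hν⟩ : ∃ ν, ν = P * Real.sqrt P * ℓ ^ 3 / Pc := ⟨_, rfl⟩
  obtain ⟨η, hη⟩ : ∃ η, η = δ * (ρ * Real.sqrt ρ) * N := ⟨_, rfl⟩
  have hη0 : 0 ≤ η := by rw [hη]; positivity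
  have hWp := Wr_pot hvm hv he hℓ
  have hcong : ∀ φ : Cfg N → ℂ, potE (fun y => ENNReal.ofReal (Wr v ℓ y)) φ =
      potE (perPot v ℓ) φ := fun φ => (potE_congr (perPot_ae hvm hv hℓ) φ).symm
  have hsN : s = N * I := by rw [hs, hI, hNℓ]; field_simp
  have hWI : ∫ y, Wr v ℓ y = I := by rw [Wr_int_one hvm hv h0 hℓ, hI, hV0]
  have hQl : ∀ K, k ≤ K → ∀ B0, Sym B0 → ∀ c, g ≤ Qf (fun y => min (Wr v ℓ y) K) q (5 * s) B0 c := by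
    have := hQ_lemma hvm hv h0 he hk1 hA hA0 hτ hℓ1 hℓk (μ := 5 * s) (by positivity)
    rw [hg, hgs, hq]
    exact this
  have hnr : ∀ n, q * sq n ≤ 144 * P → 8 * ∫ y, Wr v ℓ y * (1 - cs n y) ≤ g := by
    intro n hn
    rw [hg]
    refine near_g' hvm hv h0 hτ hnear ?_ hℓ hq n hn
    rw [hPd]
    have := mul_le_mul_of_nonneg_left hKδ hτ.le
    linarith
  have hcore := coreB hN1 hWp (Wr_meas hvm ℓ) hq0 hWI hI0 hsN (L := 14 * s) le_rfl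
    (P := P) (by linarith) (M := 144) (by norm_num) hg0 hQl hnr
    (tail_T htail hq0 hqs hP0 hℓ hqP hT)
    (count_shell hq0 (by linarith) hP0 hℓ hqP hν)
    hη0 hψ hψ1 (by
      intro φ hφ hφ1
      rw [hcong ψ, hcong φ, hη]
      exact hmin φ hφ hφ1)
  obtain ⟨O, hO⟩ : ∃ O, O = (occE ψ (fun n => n ≠ 0 ∧ q * sq n ≤ 14 * s)).toReal := ⟨_, rfl⟩
  obtain ⟨H, hH⟩ : ∃ H, H = (occE ψ (fun n => P ≤ q * sq n)).toReal := ⟨_, rfl⟩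
  rw [← hO, ← hH] at hcore
  rw [← hO, ← hH, ← hr, ← ht]
  rw [← ht] at hKD
  have hO0 : 0 ≤ O := by rw [hO]; exact ENNReal.toReal_nonneg
  have ha00 : 0 < a0 := by rw [ha0]; positivity
  refine scalB (τ := τ) (V0 := V0) (B := B) (w := w) (t := t) (a0 := a0) (D := D) (δ := δ)
    hNpos.le hr0 hτ hne
    (by rw [hB]; positivity) hδ1 hO0 hw0 ht0 ht2 ha00 hK (by rw [hr]; exact hN4) ?_ hD hKD
  have hℓr : (N : ℝ) = r ^ 2 * ℓ ^ 3 := by rw [hr2]; exact hNℓ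
  have e1 : ((N : ℝ) ^ 2 / 2) * (ν * (g ^ 2 / (80 * 144 ^ 2 * P)) - 8 * s * I ^ 2 * T) =
      N * r ^ 2 * (K * r * t) * a0 - 4 * (r ^ 2 * V0) * N * r ^ 2 * B / (r * w) := by
    rw [hT, hν, sL, sP, hB, hI, hg, ha0, hs, ← hr2, hℓr]
    field_simp
    ring
  rw [e1] at hcore
  have e2 : P = K ^ 2 * τ * r ^ 2 := by rw [hPd, hr2]
  have e3 : s = r ^ 2 * V0 := by rw [hs, hr2]
  have e4 : η = δ * (r ^ 2 * r) * N := by rw [hη, ← hr, hr2]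
  rw [e4, e3, e2] at hcore
  linarith

end

end Pool.Agent.H751R2.LHY.H81T
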