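import Pool.Agent.D0H81.LHY.Tail5

open MeasureTheory UnitAddTorus
open scoped ComplexConjugate ENNReal

namespace Pool.Agent.H751R2.LHY.H81T

noncomputable section

/-- real-valued occupation -/
def oc {N : ℕ} (ψ : Cfg N → ℂ) (P : Mom → Prop) [DecidablePred P] : ℝ := (occE ψ P).toReal

lemma oc_nonneg {N : ℕ} (ψ : Cfg N → ℂ) (P : Mom → Prop) [DecidablePred P] : 0 ≤ oc ψ P :=
  ENNReal.toReal_nonneg

lemma occE_mono {N : ℕ} (ψ : Cfg N → ℂ) (P P' : Mom → Prop) [DecidablePred P]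
    [DecidablePred P'] (h : ∀ n, P n → P' n) : occE ψ P ≤ occE ψ P' := by
  unfold occE
  refine ENNReal.tsum_le_tsum (fun M => ENNReal.ofReal_le_ofReal ?_)
  apply mul_le_mul_of_nonneg_right _ (sq_nonneg _)
  have : (Finset.univ.filter (fun i => P (M i))) ⊆ (Finset.univ.filter (fun i => P' (M i))) := by
    intro i hi
    rw [Finset.mem_filter] at hi ⊢
    exact ⟨hi.1, h _ hi.2⟩
  exact_mod_cast Finset.card_le_card this

lemma oc_mono {N : ℕ} {ψ : Cfg N → ℂ} (hψ : MemLp ψ 2) (P P' : Mom → Prop) [DecidablePred P]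
    [DecidablePred P'] (h : ∀ n, P n → P' n) : oc ψ P ≤ oc ψ P' :=
  ENNReal.toReal_mono (occE_ne_top hψ _) (occE_mono ψ P P' h)

lemma occE_union {N : ℕ} (ψ : Cfg N → ℂ) (P P1 P2 : Mom → Prop) [DecidablePred P]
    [DecidablePred P1] [DecidablePred P2] (h : ∀ n, P n → P1 n ∨ P2 n) :
    occE ψ P ≤ occE ψ P1 + occE ψ P2 := by
  classical
  unfold occE
  rw [← ENNReal.tsum_add]
  refine ENNReal.tsum_le_tsum (fun M => ?_)
  rw [← ENNReal.ofReal_add (by positivity) (by positivity), ← add_mul]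
  apply ENNReal.ofReal_le_ofReal
  apply mul_le_mul_of_nonneg_right _ (sq_nonneg _)
  have h1 : (Finset.univ.filter (fun i => P (M i))) ⊆
      (Finset.univ.filter (fun i => P1 (M i))) ∪ (Finset.univ.filter (fun i => P2 (M i))) := by
    intro i hi
    rw [Finset.mem_filter] at hi
    rw [Finset.mem_union, Finset.mem_filter, Finset.mem_filter]
    rcases h _ hi.2 with h | h
    · exact Or.inl ⟨hi.1, h⟩
    · exact Or.inr ⟨hi.1, h⟩
  exact_mod_cast (Finset.card_le_card h1).trans (Finset.card_union_le _ _)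

lemma oc_union {N : ℕ} {ψ : Cfg N → ℂ} (hψ : MemLp ψ 2) (P P1 P2 : Mom → Prop) [DecidablePred P]
    [DecidablePred P1] [DecidablePred P2] (h : ∀ n, P n → P1 n ∨ P2 n) :
    oc ψ P ≤ oc ψ P1 + oc ψ P2 := by
  unfold oc
  rw [← ENNReal.toReal_add (occE_ne_top hψ _) (occE_ne_top hψ _)]
  exact ENNReal.toReal_mono (ENNReal.add_ne_top.2 ⟨occE_ne_top hψ _, occE_ne_top hψ _⟩)
    (occE_union ψ P P1 P2 h)

/-- squared momentum of the label `n` on the torus of side `ℓ` -/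
def psq (ℓ : ℝ) (n : Mom) : ℝ := (2 * Real.pi / ℓ) ^ 2 * sq n


lemma up_all {F : ℝ → ℝ} {k0 C1 C2 E O y : ℝ} (hk0 : 1 ≤ k0) (hC1 : 0 < C1)
    (hC2 : k0 ^ 2 * (1 + C1) ≤ C2) (hy : 0 ≤ y) (hE : 0 ≤ E) (hO : 0 ≤ O)
    (hupL : ∀ K : ℝ, k0 ≤ K → F K ≤ C1 / K * y + C1 / K ^ 2 * (E + O))
    (hsm : ∀ K : ℝ, 1 ≤ K → K < k0 → F K ≤ O + F k0) (K : ℝ) (hK : 1 ≤ K) :
    F K ≤ C2 / K * y + C2 / K ^ 2 * (E + O) := by
  have hK0 : 0 < K := by linarith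
  have hk0p : 0 < k0 := by linarith
  have hEO : 0 ≤ E + O := by positivity
  have h11 : 1 * (1 + C1) ≤ k0 ^ 2 * (1 + C1) :=
    mul_le_mul_of_nonneg_right (by nlinarith) (by positivity)
  have hC1C2 : C1 ≤ C2 := by linarith
  have hC20 : 0 < C2 := by linarith
  by_cases hKk : k0 ≤ K
  · refine (hupL K hKk).trans ?_
    have e1 : C1 / K * y ≤ C2 / K * y :=
      mul_le_mul_of_nonneg_right (div_le_div_of_nonneg_right hC1C2 hK0.le) hy
    have e2 : C1 / K ^ 2 * (E + O) ≤ C2 / K ^ 2 * (E + O) :=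
      mul_le_mul_of_nonneg_right (div_le_div_of_nonneg_right hC1C2 (by positivity)) hEO
    linarith
  · push Not at hKk
    have h1 := hsm K hK hKk
    have h2 := hupL k0 le_rfl
    have e1 : C1 / k0 * y ≤ C2 / K * y := by
      apply mul_le_mul_of_nonneg_right _ hy
      exact div_le_div₀ hC20.le hC1C2 hK0 hKk.le
    have e2 : 1 + C1 / k0 ^ 2 ≤ C2 / K ^ 2 := by
      rw [le_div_iff₀ (by positivity)]
      have hKk2 : K ^ 2 ≤ k0 ^ 2 := pow_le_pow_left₀ hK0.le hKk.le 2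
      have h3 : C1 / k0 ^ 2 ≤ C1 := by
        apply div_le_self hC1.le
        nlinarith
      calc (1 + C1 / k0 ^ 2) * K ^ 2 ≤ (1 + C1) * k0 ^ 2 :=
            mul_le_mul (by linarith) hKk2 (by positivity) (by positivity)
        _ ≤ C2 := by linarith
    have h4 := mul_le_mul_of_nonneg_right e2 hEO
    linarith

lemma lo_all {F : ℝ → ℝ} {Q : ℝ → Prop} {k1 b C4 O y : ℝ} (hk1 : 1 ≤ k1) (hb : 0 < b)
    (hC4 : 0 < C4) (hy : 0 ≤ y) (hO : 0 ≤ O) (hQ1 : Q k1)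
    (hloL : ∀ K : ℝ, k1 ≤ K → Q K → b / K * y ≤ F K + C4 / K ^ 2 * O)
    (hmono : ∀ K K' : ℝ, 0 < K → K ≤ K' → F K' ≤ F K) (K : ℝ) (hK : 1 ≤ K) (hQ : Q K) :
    b / k1 / K * y ≤ F K + C4 / K ^ 2 * O := by
  have hK0 : 0 < K := by linarith
  have hk1p : 0 < k1 := by linarith
  by_cases hKk : k1 ≤ K
  · refine le_trans ?_ (hloL K hKk hQ)
    apply mul_le_mul_of_nonneg_right _ hy
    apply div_le_div_of_nonneg_right _ hK0.le
    exact div_le_self hb.le hk1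
  · push Not at hKk
    have h2 := hloL k1 le_rfl hQ1
    have h3 := hmono K k1 hK0 hKk.le
    have h4 : C4 / k1 ^ 2 * O ≤ C4 / K ^ 2 * O := by
      apply mul_le_mul_of_nonneg_right _ hO
      exact div_le_div_of_nonneg_left hC4.le (by positivity)
        (pow_le_pow_left₀ hK0.le hKk.le 2)
    have h5 : b / k1 / K * y ≤ b / k1 * y := by
      apply mul_le_mul_of_nonneg_right _ hy
      exact div_le_self (by positivity) hK
    linarith

lemma fin_A {H K C2 C E O O2 y : ℝ} (hK : 1 ≤ K) (hC2 : 0 < C2) (hCC : C2 ≤ C) (hy : 0 ≤ y)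
    (hE : 0 ≤ E) (hO2 : 0 ≤ O2) (hOO : O2 ≤ O)
    (h : H ≤ C2 / K * y + C2 / K ^ 2 * (E + O2)) :
    H ≤ C / K * y + C / K ^ 2 * (E + O) := by
  have hK0 : 0 < K := by linarith
  have e1 : C2 / K * y ≤ C / K * y :=
    mul_le_mul_of_nonneg_right (div_le_div_of_nonneg_right hCC hK0.le) hy
  have e2 : C2 / K ^ 2 * (E + O2) ≤ C / K ^ 2 * (E + O) :=
    mul_le_mul (div_le_div_of_nonneg_right hCC (by positivity)) (by linarith)
      (by positivity) (by have : 0 ≤ C := by linarith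
                          positivity)
  linarith

lemma fin_B {H K C2 C E X O2 y cd : ℝ} (hK : 1 ≤ K) (hC2 : 0 < C2) (hcd : 0 < cd)
    (hCC : C2 * (2 + 1 / cd) ≤ C) (hy : 0 ≤ y)
    (hE : 0 ≤ E) (hEX : E ≤ X) (hO2 : 0 ≤ O2) (hOX : O2 ≤ X) (hyX : cd * y ≤ X)
    (h : H ≤ C2 / K * y + C2 / K ^ 2 * (E + O2)) :
    H ≤ C / K * X := by
  have hK0 : 0 < K := by linarith
  have hX0 : 0 ≤ X := hO2.trans hOX
  have hyX' : y ≤ X / cd := by rw [le_div_iff₀ hcd]; linarith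
  have hKK : C2 / K ^ 2 ≤ C2 / K := by
    apply div_le_div_of_nonneg_left hC2.le hK0
    nlinarith
  have e1 : C2 / K ^ 2 * (E + O2) ≤ C2 / K * (X + X) :=
    mul_le_mul hKK (by linarith) (by positivity) (by positivity)
  have e2 : C2 / K * y ≤ C2 / K * (X / cd) := mul_le_mul_of_nonneg_left hyX' (by positivity)
  have e3 : C2 / K * (X / cd) + C2 / K * (X + X) = C2 * (2 + 1 / cd) / K * X := by
    field_simp
    ring
  have e4 : C2 * (2 + 1 / cd) / K * X ≤ C / K * X :=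
    mul_le_mul_of_nonneg_right (div_le_div_of_nonneg_right hCC hK0.le) hX0
  linarith

lemma fin_C {H H' S K C2 C4 C c b' Af E O O2 y : ℝ} (hK : 1 ≤ K) (hC2 : 0 < C2) (hC4 : 0 < C4)
    (hCC : C4 + C2 ≤ C) (hb' : 0 < b') (hcb : c ≤ b' / 2) (hAf : 1 ≤ Af)
    (hAf2 : C2 / Af ≤ b' / 4) (hy : 0 ≤ y) (hE : 0 ≤ E) (hEy : E ≤ y) (hO2 : 0 ≤ O2)
    (hOO : O2 ≤ O)
    (h1 : b' / K * y ≤ H + C4 / K ^ 2 * O2)
    (h2 : H' ≤ C2 / (Af * K) * y + C2 / (Af * K) ^ 2 * (E + O2))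
    (h3 : H ≤ S + H') :
    c / K * y ≤ S + C / K ^ 2 * O := by
  have hK0 : 0 < K := by linarith
  have hAf0 : 0 < Af := by linarith
  have hAK : 1 ≤ Af * K := by nlinarith
  have e1 : C2 / (Af * K) * y ≤ b' / 4 / K * y := by
    apply mul_le_mul_of_nonneg_right _ hy
    rw [← div_div]
    exact div_le_div_of_nonneg_right hAf2 hK0.le
  have e2 : C2 / (Af * K) ^ 2 * E ≤ b' / 4 / K * y := by
    have h4 : C2 / (Af * K) ^ 2 ≤ C2 / (Af * K) := by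
      apply div_le_div_of_nonneg_left hC2.le (by positivity)
      nlinarith
    calc C2 / (Af * K) ^ 2 * E ≤ C2 / (Af * K) * y :=
          mul_le_mul h4 hEy (by positivity) (by positivity)
      _ ≤ b' / 4 / K * y := e1
  have e3 : C2 / (Af * K) ^ 2 * O2 ≤ C2 / K ^ 2 * O2 := by
    apply mul_le_mul_of_nonneg_right _ hO2
    apply div_le_div_of_nonneg_left hC2.le (by positivity)
    apply pow_le_pow_left₀ hK0.le
    nlinarith
  have e4 : (C4 + C2) / K ^ 2 * O2 ≤ C / K ^ 2 * O :=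
    mul_le_mul (div_le_div_of_nonneg_right hCC (by positivity)) hOO hO2
      (by have : 0 ≤ C := by linarith
          positivity)
  have e5 : c / K * y ≤ b' / 2 / K * y :=
    mul_le_mul_of_nonneg_right (div_le_div_of_nonneg_right hcb hK0.le) hy
  have e6 : b' / K * y = b' / 2 / K * y + b' / 4 / K * y + b' / 4 / K * y := by
    field_simp
    ring
  have e7 : (C4 + C2) / K ^ 2 * O2 = C4 / K ^ 2 * O2 + C2 / K ^ 2 * O2 := by
    rw [add_div, add_mul]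
  have e9 : C2 / (Af * K) ^ 2 * (E + O2) = C2 / (Af * K) ^ 2 * E + C2 / (Af * K) ^ 2 * O2 := by
    rw [mul_add]
  rw [e9] at h2
  linarith

theorem tail_real (m : ℝ) (hm : 0 < m) (v : (Fin 3 → ℝ) → ℝ) (hvm : Measurable v)
    (hv : Integrable v) (h0 : ∀ x, 0 ≤ v x) (he : ∀ x, v (-x) = v x) (hne : 0 < ∫ x, v x) :
    ∃ c C ρ₀ : ℝ, 0 < c ∧ 0 < C ∧ 0 < ρ₀ ∧ ∀ ρ : ℝ, 0 < ρ → ρ < ρ₀ → ∃ N₀ : ℕ,
      ∀ N : ℕ, N₀ ≤ N → ∀ ℓ : ℝ, 0 < ℓ → (N : ℝ) = ρ * ℓ ^ 3 → ∀ δ : ℝ, 0 ≤ δ →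
      ∀ ψ : Cfg N → ℂ, MemLp ψ 2 → ∫ x, ‖ψ x‖ ^ 2 = 1 →
      (∀ φ : Cfg N → ℂ, MemLp φ 2 → ∫ x, ‖φ x‖ ^ 2 = 1 →
        energy m v ℓ ψ ≤ energy m v ℓ φ + ENNReal.ofReal (δ * (ρ * Real.sqrt ρ) * N)) →
      ∀ K : ℝ, 1 ≤ K →
        oc ψ (fun n => K ^ 2 * ρ ≤ psq ℓ n) ≤ C / K * Real.sqrt ρ * N + C / K ^ 2 *
          (δ * Real.sqrt ρ * N + oc ψ (fun n => n ≠ 0 ∧ psq ℓ n ≤ C * ρ)) ∧
        (δ ≤ c → oc ψ (fun n => K ^ 2 * ρ ≤ psq ℓ n) ≤ C / K * oc ψ (fun n => n ≠ 0)) ∧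
        (δ ≤ c → K * Real.sqrt ρ ≤ c → c / K * Real.sqrt ρ * N ≤
          oc ψ (fun n => K ^ 2 * ρ ≤ psq ℓ n ∧ psq ℓ n ≤ C * (K ^ 2 * ρ)) +
            C / K ^ 2 * oc ψ (fun n => n ≠ 0 ∧ psq ℓ n ≤ C * ρ)) := by
  classical
  obtain ⟨cd, Cd, ρd, hcd, hCd, hρd, hdep⟩ := depletion m hm v hvm hv h0 he hne
  obtain ⟨k, hk1, hA0⟩ := exists_trunc hvm hv h0 hne
  obtain ⟨A, hA⟩ : ∃ A, A = ∫ x, vt v k x := ⟨_, rfl⟩
  rw [← hA] at hA0
  obtain ⟨τ, hτd⟩ : ∃ τ, τ = 1 / (2 * m) := ⟨_, rfl⟩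
  have hτ : 0 < τ := by rw [hτd]; positivity
  obtain ⟨V0, hV0⟩ : ∃ V0, V0 = ∫ x, v x := ⟨_, rfl⟩
  rw [← hV0] at hne
  obtain ⟨gs, hgs⟩ : ∃ gs, gs = A ^ 2 / (A + (7 * A ^ 2 + k * A) / τ) := ⟨_, rfl⟩
  have hk0 : 0 < k := by linarith
  have hgs0 : 0 < gs := by rw [hgs]; positivity
  obtain ⟨δ₀, hδ₀, hnear⟩ := near_cos hvm hv (ε := gs / 8) (by positivity)
  obtain ⟨Ct, hCt, htail⟩ := tail_sum
  obtain ⟨Pc, hP⟩ : ∃ P, P = τ * Real.sqrt τ * (2 * Real.pi) ^ 3 := ⟨_, rfl⟩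
  have hPi : 0 < Real.pi := Real.pi_pos
  have hsτ : 0 < Real.sqrt τ := Real.sqrt_pos.2 hτ
  have hP0 : 0 < Pc := by rw [hP]; positivity
  obtain ⟨B, hB⟩ : ∃ B, B = V0 ^ 2 * Ct / Pc := ⟨_, rfl⟩
  have hB0 : 0 < B := by rw [hB]; positivity
  have hw0 : 0 < Real.sqrt (14 * V0) := Real.sqrt_pos.2 (by positivity)
  have hu0 : 0 < Real.sqrt (τ / 2) := Real.sqrt_pos.2 (by positivity)
  -- constants of the upper bound
  obtain ⟨k0, hk0d⟩ : ∃ k0, k0 = max 1 (Real.sqrt (28 * V0 / τ)) := ⟨_, rfl⟩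
  have hk01 : 1 ≤ k0 := by rw [hk0d]; exact le_max_left _ _
  have hk02 : ∀ K, k0 ≤ K → 28 * V0 ≤ K ^ 2 * τ := by
    intro K hK
    have h1 : Real.sqrt (28 * V0 / τ) ≤ K := (le_max_right _ _).trans (hk0d ▸ hK)
    have h2 : 28 * V0 / τ ≤ K ^ 2 := (Real.sqrt_le_left (by linarith)).1 h1
    rwa [div_le_iff₀ hτ] at h2
  obtain ⟨C1, hC1d⟩ : ∃ C1, C1 = max (28 * V0 / τ) (max (4 / τ)
    (1 + 16 * V0 * B / (τ * Real.sqrt (14 * V0)) + B / (2 * Real.sqrt (τ / 2)))) := ⟨_, rfl⟩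
  have hC11 : 28 * V0 / τ ≤ C1 := by rw [hC1d]; exact le_max_left _ _
  have hC12 : 4 / τ ≤ C1 := by rw [hC1d]; exact (le_max_left _ _).trans (le_max_right _ _)
  have hC13 : 1 + 16 * V0 * B / (τ * Real.sqrt (14 * V0)) + B / (2 * Real.sqrt (τ / 2)) ≤ C1 := by
    rw [hC1d]; exact (le_max_right _ _).trans (le_max_right _ _)
  have hC10 : 0 < C1 := lt_of_lt_of_le (by positivity) hC12
  obtain ⟨C2, hC2d⟩ : ∃ C2, C2 = k0 ^ 2 * (1 + C1) + 14 * V0 / τ := ⟨_, rfl⟩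
  have hC20 : 0 < C2 := by rw [hC2d]; positivity
  have h14 : 0 < 14 * V0 / τ := by positivity
  have hC2a : k0 ^ 2 * (1 + C1) ≤ C2 := by rw [hC2d]; linarith
  have hC2b : 14 * V0 / τ ≤ C2 := by rw [hC2d]; have : 0 ≤ k0 ^ 2 * (1 + C1) := by positivity
                                     linarith
  -- constants of the lower bound
  obtain ⟨a0, ha0⟩ : ∃ a0, a0 = gs ^ 2 / (160 * 144 ^ 2 * Pc) := ⟨_, rfl⟩
  have ha00 : 0 < a0 := by rw [ha0]; positivity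
  obtain ⟨D, hD⟩ : ∃ D, D = 1 + 1 / τ + 4 * V0 * B / (Real.sqrt (14 * V0) * τ) := ⟨_, rfl⟩
  have hD0 : 0 < D := by rw [hD]; positivity
  obtain ⟨k1, hk1d⟩ : ∃ k1, k1 = max k0 (2 * D * Real.sqrt τ / a0) := ⟨_, rfl⟩
  have hk10 : k0 ≤ k1 := by rw [hk1d]; exact le_max_left _ _
  have hk1D : 2 * D * Real.sqrt τ / a0 ≤ k1 := by rw [hk1d]; exact le_max_right _ _
  have hk11 : 1 ≤ k1 := hk01.trans hk10
  obtain ⟨b, hb⟩ : ∃ b, b = a0 / (2 * Real.sqrt τ) := ⟨_, rfl⟩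
  have hb0 : 0 < b := by rw [hb]; positivity
  obtain ⟨b', hb'⟩ : ∃ b', b' = b / k1 := ⟨_, rfl⟩
  have hb'0 : 0 < b' := by rw [hb']; positivity
  obtain ⟨C4, hC4⟩ : ∃ C4, C4 = 7 * V0 / τ := ⟨_, rfl⟩
  have hC40 : 0 < C4 := by rw [hC4]; positivity
  obtain ⟨Af, hAf⟩ : ∃ Af, Af = max 1 (4 * C2 / b') := ⟨_, rfl⟩
  have hAf1 : 1 ≤ Af := by rw [hAf]; exact le_max_left _ _
  have hAf2 : C2 / Af ≤ b' / 4 := by
    rw [div_le_iff₀ (by linarith)]
    have : 4 * C2 / b' ≤ Af := by rw [hAf]; exact le_max_right _ _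
    rw [div_le_iff₀ hb'0] at this
    linarith
  -- final constants
  obtain ⟨C, hCd'⟩ : ∃ C, C = C2 + C2 * (2 + 1 / cd) + (C4 + C2) + Af ^ 2 := ⟨_, rfl⟩
  have hCC2 : C2 ≤ C := by rw [hCd']; have : 0 ≤ C2 * (2 + 1 / cd) + (C4 + C2) + Af ^ 2 := by
                                        positivity
                           linarith
  have hCC3 : C2 * (2 + 1 / cd) ≤ C := by rw [hCd']; have : 0 ≤ C2 + (C4 + C2) + Af ^ 2 := by
                                                       positivity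
                                          linarith
  have hCC4 : C4 + C2 ≤ C := by rw [hCd']; have : 0 ≤ C2 + C2 * (2 + 1 / cd) + Af ^ 2 := by
                                             positivity
                                linarith
  have hCA : Af ^ 2 ≤ C := by rw [hCd']; have : 0 ≤ C2 + C2 * (2 + 1 / cd) + (C4 + C2) := by
                                           positivity
                              linarith
  have hC0 : 0 < C := by linarith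
  obtain ⟨c, hc⟩ : ∃ c, c = min (min cd 1) (min (Real.sqrt (δ₀ / 144)) (b' / 2)) := ⟨_, rfl⟩
  have hsδ : 0 < Real.sqrt (δ₀ / 144) := Real.sqrt_pos.2 (by positivity)
  have hc0 : 0 < c := by
    rw [hc]; exact lt_min (lt_min hcd one_pos) (lt_min hsδ (by positivity))
  have hccd : c ≤ cd := by rw [hc]; exact (min_le_left _ _).trans (min_le_left _ _)
  have hc1 : c ≤ 1 := by rw [hc]; exact (min_le_left _ _).trans (min_le_right _ _)
  have hcs : c ≤ Real.sqrt (δ₀ / 144) := by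
    rw [hc]; exact (min_le_right _ _).trans (min_le_left _ _)
  have hcb : c ≤ b' / 2 := by rw [hc]; exact (min_le_right _ _).trans (min_le_right _ _)
  refine ⟨c, C, min ρd (δ₀ / (144 * k1 ^ 2)), hc0, hC0, lt_min hρd (by positivity), ?_⟩
  intro ρ hρ hρ0
  have hρρd : ρ < ρd := hρ0.trans_le (min_le_left _ _)
  have hρδ : ρ < δ₀ / (144 * k1 ^ 2) := hρ0.trans_le (min_le_right _ _)
  have hsρ : 0 < Real.sqrt ρ := Real.sqrt_pos.2 hρ
  obtain ⟨S0, hS0⟩ : ∃ S0, S0 = Real.sqrt (16 * Real.pi ^ 2 * τ / (5 * (ρ * V0))) := ⟨_, rfl⟩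
  have hS0n : 0 ≤ S0 := by rw [hS0]; exact Real.sqrt_nonneg _
  obtain ⟨Nd, hNd⟩ := hdep ρ hρ hρρd
  obtain ⟨N0, hN0⟩ := exists_nat_ge (max (ρ * (2 * k + 1 + S0) ^ 3) (4 * V0 / τ / Real.sqrt ρ))
  refine ⟨max Nd (N0 + 1), fun N hN ℓ hℓ hNℓ δ hδ ψ hψ hψ1 hmin K hK => ?_⟩
  have hNNd : Nd ≤ N := (le_max_left _ _).trans hN
  have hNN0 : N0 + 1 ≤ N := (le_max_right _ _).trans hN
  have hNr : (N0 : ℝ) ≤ N := by exact_mod_cast (by omega : N0 ≤ N)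
  have hN1 : 1 ≤ N := by omega
  have hNpos : (0 : ℝ) < N := by exact_mod_cast hN1
  have hℓℓ0 : 2 * k + 1 + S0 ≤ ℓ := by
    by_contra h
    push Not at h
    have h1 : ρ * (2 * k + 1 + S0) ^ 3 ≤ ρ * ℓ ^ 3 := by
      rw [← hNℓ]; exact (le_max_left _ _).trans (hN0.trans hNr)
    have h2 : ℓ ^ 3 < (2 * k + 1 + S0) ^ 3 := pow_lt_pow_left₀ h hℓ.le (by norm_num)
    have h3 := mul_lt_mul_of_pos_left h2 hρ
    linarith
  have hℓk : 2 * k < ℓ := by linarith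
  have hℓ1 : 1 ≤ ℓ := by linarith
  have hℓs : 16 * Real.pi ^ 2 * τ / (5 * (ρ * V0)) ≤ ℓ ^ 2 := by
    have h1 : Real.sqrt (16 * Real.pi ^ 2 * τ / (5 * (ρ * V0))) ≤ ℓ := by
      rw [← hS0]; linarith
    exact (Real.sqrt_le_left hℓ.le).1 h1
  have hN4 : 4 * V0 / τ ≤ Real.sqrt ρ * N := by
    have h1 : 4 * V0 / τ / Real.sqrt ρ ≤ N := (le_max_right _ _).trans (hN0.trans hNr)
    rw [div_le_iff₀ hsρ] at h1
    linarith
  have hN4' : V0 / τ ≤ Real.sqrt ρ * N := by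
    have h1 : V0 / τ ≤ 4 * V0 / τ := by
      apply div_le_div_of_nonneg_right _ hτ.le
      linarith
    linarith
  obtain ⟨q, hq⟩ : ∃ q, q = τ * (2 * Real.pi / ℓ) ^ 2 := ⟨_, rfl⟩
  have hq0 : 0 < q := by rw [hq]; positivity
  have hqs : q ≤ 14 * (ρ * V0) := by
    have hρV : 0 < ρ * V0 := by positivity
    rw [div_le_iff₀ (by positivity)] at hℓs
    have : q = 4 * Real.pi ^ 2 * τ / ℓ ^ 2 := by rw [hq]; field_simp; ring
    rw [this, div_le_iff₀ (by positivity)]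
    have h2 : 0 < ρ * V0 * ℓ ^ 2 := by positivity
    nlinarith
  have hmin' : ∀ φ : Cfg N → ℂ, MemLp φ 2 → ∫ x, ‖φ x‖ ^ 2 = 1 →
        kinE q ψ + potE (perPot v ℓ) ψ ≤
        kinE q φ + potE (perPot v ℓ) φ + ENNReal.ofReal (δ * (ρ * Real.sqrt ρ) * N) := by
    intro φ hφ hφ1
    have := hmin φ hφ hφ1
    unfold energy at this
    rw [hq, hτd]
    exact this
  -- translation of the momentum conditions
  have hpsq : ∀ n, q * sq n = τ * psq ℓ n := by intro n; rw [hq, psq]; ring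
  have hhigh : ∀ K : ℝ, (occE ψ (fun n => K ^ 2 * τ * ρ ≤ q * sq n)).toReal =
      oc ψ (fun n => K ^ 2 * ρ ≤ psq ℓ n) := by
    intro K
    unfold oc
    congr 1
    apply occE_congr
    intro n
    rw [hpsq]
    constructor
    · intro h
      have : τ * (K ^ 2 * ρ) ≤ τ * psq ℓ n := by linarith
      exact le_of_mul_le_mul_left this hτ
    · intro h
      have := mul_le_mul_of_nonneg_left h hτ.le
      linarith
  set O : ℝ := oc ψ (fun n => n ≠ 0 ∧ psq ℓ n ≤ C * ρ) with hO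
  set O2 : ℝ := oc ψ (fun n => n ≠ 0 ∧ psq ℓ n ≤ C2 * ρ) with hO2
  have hlow : (occE ψ (fun n => n ≠ 0 ∧ q * sq n ≤ 14 * (ρ * V0))).toReal ≤ O2 := by
    rw [hO2]
    refine oc_mono hψ _ _ (fun n hn => ⟨hn.1, ?_⟩)
    have h1 := hn.2
    rw [hpsq] at h1
    have h2 : psq ℓ n ≤ 14 * V0 / τ * ρ := by
      rw [div_mul_eq_mul_div, le_div_iff₀ hτ]; linarith
    exact h2.trans (mul_le_mul_of_nonneg_right hC2b hρ.le)
  have hO2O : O2 ≤ O := by
    rw [hO2, hO]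
    refine oc_mono hψ _ _ (fun n hn => ⟨hn.1, hn.2.trans ?_⟩)
    exact mul_le_mul_of_nonneg_right hCC2 hρ.le
  have hO20 : 0 ≤ O2 := oc_nonneg _ _
  have hO0 : 0 ≤ O := oc_nonneg _ _
  obtain ⟨y, hy⟩ : ∃ y, y = Real.sqrt ρ * N := ⟨_, rfl⟩
  have hy0 : 0 < y := by rw [hy]; positivity
  -- the upper bound for large K
  have hupL : ∀ K : ℝ, k0 ≤ K → oc ψ (fun n => K ^ 2 * ρ ≤ psq ℓ n) ≤
      C1 / K * y + C1 / K ^ 2 * (δ * y + O2) := by
    intro K hK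
    have hK1 : 1 ≤ K := hk01.trans hK
    have h1 := oneA hvm hv h0 he hV0 hne hτ hCt htail hP hB hδ hρ hN1 hℓ hNℓ hN4 hq hqs hK1
      (hk02 K hK) hC11 hC12 hC13 hψ hψ1 hmin'
    rw [hhigh] at h1
    have h2 : C1 / K ^ 2 * (δ * Real.sqrt ρ * N +
        (occE ψ (fun n => n ≠ 0 ∧ q * sq n ≤ 14 * (ρ * V0))).toReal) ≤
        C1 / K ^ 2 * (δ * y + O2) := by
      apply mul_le_mul_of_nonneg_left _ (by positivity)
      rw [hy]; linarith
    have h3 : C1 / K * Real.sqrt ρ * N = C1 / K * y := by rw [hy]; ring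
    linarith
  -- monotonicity
  have hmono : ∀ K K' : ℝ, 0 < K → K ≤ K' → oc ψ (fun n => K' ^ 2 * ρ ≤ psq ℓ n) ≤
      oc ψ (fun n => K ^ 2 * ρ ≤ psq ℓ n) := by
    intro K K' hK hKK
    refine oc_mono hψ _ _ (fun n hn => le_trans ?_ hn)
    exact mul_le_mul_of_nonneg_right (pow_le_pow_left₀ hK.le hKK 2) hρ.le
  have hδy0 : 0 ≤ δ * y := mul_nonneg hδ hy0.le
  -- the upper bound for all K ≥ 1
  have hup : ∀ K : ℝ, 1 ≤ K → oc ψ (fun n => K ^ 2 * ρ ≤ psq ℓ n) ≤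
      C2 / K * y + C2 / K ^ 2 * (δ * y + O2) := by
    refine up_all (F := fun K => oc ψ (fun n => K ^ 2 * ρ ≤ psq ℓ n)) hk01 hC10 hC2a hy0.le
      hδy0 hO20 hupL ?_
    intro K hK hKk
    show oc ψ (fun n => K ^ 2 * ρ ≤ psq ℓ n) ≤ O2 + oc ψ (fun n => k0 ^ 2 * ρ ≤ psq ℓ n)
    rw [hO2]
    refine oc_union hψ _ _ _ (fun n hn => ?_)
    by_cases h : k0 ^ 2 * ρ ≤ psq ℓ n
    · exact Or.inr h
    · left
      push Not at h
      constructor
      · rintro rfl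
        have h00 : psq ℓ 0 = 0 := by simp [psq, sq]
        rw [h00] at hn
        have hK0 : 0 < K := lt_of_lt_of_le one_pos hK
        have : 0 < K ^ 2 * ρ := mul_pos (pow_pos hK0 2) hρ
        exact absurd hn (not_le.2 this)
      · refine h.le.trans (mul_le_mul_of_nonneg_right ?_ hρ.le)
        refine le_trans ?_ hC2a
        nlinarith only [sq_nonneg k0, hC10, mul_nonneg (sq_nonneg k0) hC10.le]
  -- the lower bound
  have hlo : δ ≤ 1 → ∀ K : ℝ, 1 ≤ K → 144 * (K ^ 2 * ρ) ≤ δ₀ →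
      b / k1 / K * y ≤ oc ψ (fun n => K ^ 2 * ρ ≤ psq ℓ n) + C4 / K ^ 2 * O2 := by
    intro hδ1 K hK hKδ
    refine lo_all (F := fun K => oc ψ (fun n => K ^ 2 * ρ ≤ psq ℓ n))
      (Q := fun K => 144 * (K ^ 2 * ρ) ≤ δ₀) hk11 hb0 hC40 hy0.le hO20 ?_ ?_ hmono K hK hKδ
    · show 144 * (k1 ^ 2 * ρ) ≤ δ₀
      have hk1p : 0 < k1 := lt_of_lt_of_le one_pos hk11
      rw [lt_div_iff₀ (by positivity)] at hρδ
      linarith only [hρδ]
    · intro K hK hKδ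
      have hK0 : 0 < K := lt_of_lt_of_le one_pos (hk11.trans hK)
      have h1 := oneB hvm hv h0 he hV0 hne hk1 hA hA0 hτ hgs hgs0 hnear hCt htail hP hB ha0 hD
        hδ hδ1 hρ hN1 hℓ hNℓ hN4' hℓ1 hℓk hq hqs hK0 (hk02 K (hk10.trans hK)) (hk1D.trans hK)
        hKδ hψ hψ1 hmin'
      rw [hhigh] at h1
      have h2 : C4 / K ^ 2 * (occE ψ (fun n => n ≠ 0 ∧ q * sq n ≤ 14 * (ρ * V0))).toReal ≤
          C4 / K ^ 2 * O2 := mul_le_mul_of_nonneg_left hlow (by positivity)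
      rw [← hC4, ← hb] at h1
      have h3 : b / K * Real.sqrt ρ * N = b / K * y := by rw [hy]; ring
      show b / K * y ≤ oc ψ (fun n => K ^ 2 * ρ ≤ psq ℓ n) + C4 / K ^ 2 * O2
      linarith only [h1, h2, h3]
  have hK0 : 0 < K := lt_of_lt_of_le one_pos hK
  have hOX : O2 ≤ oc ψ (fun n => n ≠ 0) := oc_mono hψ _ _ (fun n hn => hn.1)
  have e3 : ∀ C : ℝ, C / K * Real.sqrt ρ * N = C / K * y := by intro C; rw [hy]; ring
  have e4 : δ * Real.sqrt ρ * N = δ * y := by rw [hy]; ring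
  refine ⟨?_, ?_, ?_⟩
  · rw [e3, e4]
    exact fin_A hK hC20 hCC2 hy0.le hδy0 hO20 hO2O (hup K hK)
  · intro hδc
    have hdp := (hNd N hNNd ℓ hℓ hNℓ ψ hψ hψ1 (by
      intro φ hφ hφ1
      refine (hmin φ hφ hφ1).trans ?_
      gcongr
      exact hδc.trans hccd)).1
    have hyX : cd * y ≤ oc ψ (fun n => n ≠ 0) := by
      have h1 : ENNReal.ofReal (cd * Real.sqrt ρ * N) ≤ occE ψ (fun n => n ≠ 0) :=
        hdp.trans (occE_mono ψ _ _ (fun n hn => hn.1))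
      have h2 := (ENNReal.ofReal_le_iff_le_toReal (occE_ne_top hψ _)).1 h1
      have h3 : cd * Real.sqrt ρ * N = cd * y := by rw [hy]; ring
      rw [← h3]; exact h2
    have hδy : δ * y ≤ oc ψ (fun n => n ≠ 0) :=
      (mul_le_mul_of_nonneg_right (hδc.trans hccd) hy0.le).trans hyX
    exact fin_B hK hC20 hcd hCC3 hy0.le hδy0 hδy hO20 hOX hyX (hup K hK)
  · intro hδc hKc
    have hδ1 : δ ≤ 1 := hδc.trans hc1
    have hKδ : 144 * (K ^ 2 * ρ) ≤ δ₀ := by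
      have h1 : (K * Real.sqrt ρ) ^ 2 ≤ Real.sqrt (δ₀ / 144) ^ 2 :=
        pow_le_pow_left₀ (mul_nonneg hK0.le hsρ.le) (hKc.trans hcs) 2
      rw [mul_pow, Real.sq_sqrt hρ.le, Real.sq_sqrt (by positivity)] at h1
      linarith only [h1]
    have h1 := hlo hδ1 K hK hKδ
    have hAK : 1 ≤ Af * K := by nlinarith only [hAf1, hK]
    have h2 := hup (Af * K) hAK
    have h3 : oc ψ (fun n => K ^ 2 * ρ ≤ psq ℓ n) ≤
        oc ψ (fun n => K ^ 2 * ρ ≤ psq ℓ n ∧ psq ℓ n ≤ C * (K ^ 2 * ρ)) +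
          oc ψ (fun n => (Af * K) ^ 2 * ρ ≤ psq ℓ n) := by
      refine oc_union hψ _ _ _ (fun n hn => ?_)
      by_cases h : (Af * K) ^ 2 * ρ ≤ psq ℓ n
      · exact Or.inr h
      · left
        push Not at h
        refine ⟨hn, h.le.trans ?_⟩
        have h5 : Af ^ 2 * (K ^ 2 * ρ) ≤ C * (K ^ 2 * ρ) :=
          mul_le_mul_of_nonneg_right hCA (mul_nonneg (sq_nonneg K) hρ.le)
        have h6 : (Af * K) ^ 2 * ρ = Af ^ 2 * (K ^ 2 * ρ) := by ring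
        rw [h6]; exact h5
    have hEy : δ * y ≤ y := by
      have := mul_le_mul_of_nonneg_right hδ1 hy0.le
      rwa [one_mul] at this
    rw [e3]
    rw [hb'] at hb'0 hAf2 hcb
    exact fin_C hK hC20 hC40 hCC4 hb'0 hcb hAf1 hAf2 hy0.le hδy0 hEy hO20 hO2O h1 h2 h3

end

end Pool.Agent.H751R2.LHY.H81T
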